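import Pool.Agent.W_7d29a1_P89.Defs
import Pool.Agent.W_7d29a1_h46u.RateU

/-!
Theorem (P): basic facts.
-/

namespace Pool.Agent.W_7d29a1_P89

open MeasureTheory ProbabilityTheory Filter Topology Pool.Agent.W_MP_7d29a1_pr
  Pool.Agent.W_7d29a1_h46 Pool.Agent.W_7d29a1_h46u Pool.Agent.W_7d29a1_D2.B35

variable {d : ℕ}

lemma W_nonneg (P : Prm d) (η : Env d) (n : ℕ) (x : Site d) : 0 ≤ W P η n x :=
  mul_nonneg (Real.exp_pos _).le (PP_nonneg _ _ _ _ _)

lemma ZH_pos (hd : 0 < d) (P : Prm d) (η : Env d) (n : ℕ) : 0 < ZH P η n :=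
  mul_pos (Real.exp_pos _) (Z_pos hd _ _ _ _)

lemma ZH_eq (P : Prm d) (η : Env d) (n : ℕ) : ZH P η n = ∑ x ∈ boxF d n, W P η n x := by
  unfold ZH W
  rw [Z_eq_sum, Finset.mul_sum]

lemma W_le_ZH (P : Prm d) (η : Env d) (n : ℕ) (x : Site d) : W P η n x ≤ ZH P η n :=
  mul_le_mul_of_nonneg_left (PP_le_Z _ _ _ _ _) (Real.exp_pos _).le

lemma exp_split (P : Prm d) (m n : ℕ) : Real.exp (-(((m + n : ℕ) : ℝ) * P.Lam)) =
    Real.exp (-((m : ℝ) * P.Lam)) * Real.exp (-((n : ℝ) * P.Lam)) := by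
  rw [← Real.exp_add]
  congr 1
  push_cast
  ring

lemma W_chain (P : Prm d) (η : Env d) (m n : ℕ) (z w : Site d) :
    W P η m z * W P (sh m z η) n w ≤ W P η (m + n) (z + w) := by
  unfold W
  rw [exp_split]
  have h := PP_chain P.be P.h η m n z w
  calc Real.exp (-((m : ℝ) * P.Lam)) * PP P.be P.h η m z *
        (Real.exp (-((n : ℝ) * P.Lam)) * PP P.be P.h (sh m z η) n w)
      = Real.exp (-((m : ℝ) * P.Lam)) * Real.exp (-((n : ℝ) * P.Lam)) *
        (PP P.be P.h η m z * PP P.be P.h (sh m z η) n w) := by ring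
    _ ≤ _ := mul_le_mul_of_nonneg_left h (by positivity)

lemma chainZ (P : Prm d) (η : Env d) (m n : ℕ) (z : Site d) :
    W P η m z * ZH P (sh m z η) n ≤ ZH P η (m + n) := by
  unfold W ZH
  rw [exp_split]
  have h := PP_chainZ P.be P.h η m n z
  calc Real.exp (-((m : ℝ) * P.Lam)) * PP P.be P.h η m z *
        (Real.exp (-((n : ℝ) * P.Lam)) * Z P.be P.h (sh m z η) n)
      = Real.exp (-((m : ℝ) * P.Lam)) * Real.exp (-((n : ℝ) * P.Lam)) *
        (PP P.be P.h η m z * Z P.be P.h (sh m z η) n) := by ring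
    _ ≤ _ := mul_le_mul_of_nonneg_left h (by positivity)

lemma PP_zero (β : ℝ) (h : Vec d) (η : Env d) (n : ℕ) {x : Site d} (hx : x ∉ boxF d n) :
    PP β h η n x = 0 := by
  classical
  unfold PP ZT
  refine Finset.sum_eq_zero fun s _ => ?_
  refine if_neg fun hs => hx ?_
  rw [← (hs : pos s n = x)]
  exact pos_mem_box s n

lemma W_zero (P : Prm d) (η : Env d) (n : ℕ) {x : Site d} (hx : x ∉ boxF d n) :
    W P η n x = 0 := by
  unfold W
  rw [PP_zero _ _ _ _ hx, mul_zero]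

lemma PP_split (β : ℝ) (h : Vec d) (η : Env d) (m n : ℕ) (x : Site d) :
    PP β h η (m + n) x = ∑ z ∈ boxF d m, PP β h η m z * PP β h (sh m z η) n (x - z) := by
  classical
  have h1 : PP β h η (m + n) x = ∑ s : Fin m → Step d,
      wgt β h η s * PP β h (sh m (pos s m) η) n (x - pos s m) := by
    unfold PP ZT
    rw [sum_glue]
    refine Finset.sum_congr rfl fun s _ => ?_
    rw [Finset.mul_sum]
    refine Finset.sum_congr rfl fun q _ => ?_
    have h2 : (Fin.append s q ∈ {s : Fin (m + n) → Step d | pos s (m + n) = x}) ↔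
        (q ∈ {q : Fin n → Step d | pos q n = x - pos s m}) := by
      simp only [Set.mem_ofPred_eq, pos_glue_add]
      constructor
      · intro h; rw [← h]; abel
      · intro h; rw [h]; abel
    by_cases hq : q ∈ {q : Fin n → Step d | pos q n = x - pos s m}
    · rw [if_pos hq, if_pos (h2.2 hq), wgt_glue]
    · rw [if_neg hq, if_neg (fun h => hq (h2.1 h)), mul_zero]
  have h3 : ∀ z : Site d, PP β h η m z * PP β h (sh m z η) n (x - z) =
      ∑ s : Fin m → Step d, (if pos s m = z then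
        wgt β h η s * PP β h (sh m z η) n (x - z) else 0) := by
    intro z
    conv_lhs => rw [PP]
    unfold ZT
    rw [Finset.sum_mul]
    refine Finset.sum_congr rfl fun s _ => ?_
    by_cases hs : pos s m = z
    · rw [if_pos hs, if_pos (show s ∈ {s : Fin m → Step d | pos s m = z} from hs)]
    · rw [if_neg hs, if_neg (show ¬ s ∈ {s : Fin m → Step d | pos s m = z} from hs), zero_mul]
  rw [h1, Finset.sum_congr rfl fun z _ => h3 z, Finset.sum_comm]
  refine Finset.sum_congr rfl fun s _ => ?_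
  rw [Finset.sum_ite_eq, if_pos (pos_mem_box s m)]

lemma W_split (P : Prm d) (η : Env d) (m n : ℕ) (x : Site d) :
    W P η (m + n) x = ∑ z ∈ boxF d m, W P η m z * W P (sh m z η) n (x - z) := by
  unfold W
  rw [exp_split, PP_split, Finset.mul_sum]
  refine Finset.sum_congr rfl fun z _ => ?_
  ring

/-! ### Powers -/

lemma rpow_add_le {x y a : ℝ} (hx : 0 ≤ x) (hy : 0 ≤ y) (h0 : 0 ≤ a) (h1 : a ≤ 1) :
    (x + y) ^ a ≤ x ^ a + y ^ a := by
  lift x to NNReal using hx
  lift y to NNReal using hy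
  exact_mod_cast NNReal.rpow_add_le_add_rpow x y h0 h1

lemma rpow_sum_le {ι : Type*} (s : Finset ι) {f : ι → ℝ} (hf : ∀ i, 0 ≤ f i) {a : ℝ}
    (h0 : 0 < a) (h1 : a ≤ 1) : (∑ i ∈ s, f i) ^ a ≤ ∑ i ∈ s, f i ^ a := by
  classical
  induction s using Finset.induction_on with
  | empty => simp [Real.zero_rpow h0.ne']
  | insert i s hi ih =>
    rw [Finset.sum_insert hi, Finset.sum_insert hi]
    exact (rpow_add_le (hf i) (Finset.sum_nonneg fun j _ => hf j) h0.le h1).trans
      (add_le_add le_rfl ih)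

lemma rpow_le_one_add {x a : ℝ} (hx : 0 ≤ x) (h0 : 0 ≤ a) (h1 : a ≤ 1) : x ^ a ≤ 1 + x := by
  rcases le_total x 1 with h | h
  · have := Real.rpow_le_one hx h h0
    linarith
  · have := Real.rpow_le_rpow_of_exponent_le h h1
    rw [Real.rpow_one] at this
    linarith

lemma V_nonneg (P : Prm d) (η : Env d) (n : ℕ) : 0 ≤ V P η n :=
  Finset.sum_nonneg fun x _ => Real.rpow_nonneg (W_nonneg P η n x) _

lemma ZH_le_V (P : Prm d) (h0 : 0 < P.a) (h1 : P.a ≤ 1) (η : Env d) (n : ℕ) :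
    ZH P η n ^ P.a ≤ V P η n := by
  rw [ZH_eq]
  exact rpow_sum_le _ (fun x => W_nonneg P η n x) h0 h1

lemma V_le (P : Prm d) (h0 : 0 ≤ P.a) (η : Env d) (n : ℕ) :
    V P η n ≤ (2 * (n : ℝ) + 1) ^ d * ZH P η n ^ P.a := by
  have h1 : ∀ x ∈ boxF d n, W P η n x ^ P.a ≤ ZH P η n ^ P.a := fun x _ =>
    Real.rpow_le_rpow (W_nonneg P η n x) (W_le_ZH P η n x) h0
  have h2 := Finset.sum_le_card_nsmul _ _ _ h1
  rw [card_boxF, nsmul_eq_mul] at h2
  unfold V
  push_cast at h2
  exact h2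

lemma V_le' (hd : 0 < d) (P : Prm d) (h0 : 0 ≤ P.a) (h1 : P.a ≤ 1) (η : Env d) (n : ℕ) :
    V P η n ≤ (2 * (n : ℝ) + 1) ^ d * (1 + ZH P η n) :=
  (V_le P h0 η n).trans (mul_le_mul_of_nonneg_left
    (rpow_le_one_add (ZH_pos hd P η n).le h0 h1) (by positivity))

/-- The sum over the shifted end points. -/
lemma sum_shift (P : Prm d) (h0 : 0 < P.a) (η : Env d) (n : ℕ) (S : Finset (Site d))
    (z : Site d) : ∑ x ∈ S, W P η n (x - z) ^ P.a ≤ V P η n := by
  classical
  have h1 : ∑ x ∈ S, W P η n (x - z) ^ P.a =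
      ∑ w ∈ S.image fun x => x - z, W P η n w ^ P.a := by
    rw [Finset.sum_image]
    intro x _ y _ hxy
    exact sub_left_injective hxy
  have h2 : ∑ w ∈ S.image fun x => x - z, W P η n w ^ P.a =
      ∑ w ∈ (S.image fun x => x - z).filter (fun w => w ∈ boxF d n), W P η n w ^ P.a := by
    rw [Finset.sum_filter]
    refine Finset.sum_congr rfl fun w _ => ?_
    by_cases hw : w ∈ boxF d n
    · rw [if_pos hw]
    · rw [if_neg hw, W_zero P η n hw, Real.zero_rpow h0.ne']
  rw [h1, h2]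
  refine Finset.sum_le_sum_of_subset_of_nonneg ?_ fun w _ _ =>
    Real.rpow_nonneg (W_nonneg P η n w) _
  intro w hw
  exact (Finset.mem_filter.1 hw).2

lemma V_split (P : Prm d) (h0 : 0 < P.a) (h1 : P.a ≤ 1) (η : Env d) (m n : ℕ) :
    V P η (m + n) ≤ ∑ z ∈ boxF d m, W P η m z ^ P.a * V P (sh m z η) n := by
  have h2 : ∀ x ∈ boxF d (m + n), W P η (m + n) x ^ P.a ≤
      ∑ z ∈ boxF d m, W P η m z ^ P.a * W P (sh m z η) n (x - z) ^ P.a := by
    intro x _
    rw [W_split]
    refine (rpow_sum_le _ (fun z => mul_nonneg (W_nonneg _ _ _ _) (W_nonneg _ _ _ _))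
      h0 h1).trans (le_of_eq ?_)
    refine Finset.sum_congr rfl fun z _ => ?_
    exact Real.mul_rpow (W_nonneg _ _ _ _) (W_nonneg _ _ _ _)
  refine (Finset.sum_le_sum h2).trans ?_
  rw [Finset.sum_comm]
  refine Finset.sum_le_sum fun z _ => ?_
  rw [← Finset.mul_sum]
  exact mul_le_mul_of_nonneg_left (sum_shift P h0 _ _ _ z)
    (Real.rpow_nonneg (W_nonneg _ _ _ _) _)

/-- The growth of `V` through a fixed segment. -/
lemma V_chain (P : Prm d) (h0 : 0 < P.a) (η : Env d) (m n : ℕ) (z : Site d) :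
    W P η m z ^ P.a * V P (sh m z η) n ≤ V P η (m + n) := by
  classical
  by_cases hz : z ∈ boxF d m
  · unfold V
    rw [Finset.mul_sum]
    have h1 : ∀ w ∈ boxF d n, W P η m z ^ P.a * W P (sh m z η) n w ^ P.a ≤
        W P η (m + n) (z + w) ^ P.a := by
      intro w _
      rw [← Real.mul_rpow (W_nonneg _ _ _ _) (W_nonneg _ _ _ _)]
      exact Real.rpow_le_rpow (mul_nonneg (W_nonneg _ _ _ _) (W_nonneg _ _ _ _))
        (W_chain P η m n z w) h0.le
    refine (Finset.sum_le_sum h1).trans ?_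
    have h2 : ∑ w ∈ boxF d n, W P η (m + n) (z + w) ^ P.a =
        ∑ x ∈ (boxF d n).image fun w => z + w, W P η (m + n) x ^ P.a := by
      rw [Finset.sum_image]
      intro x _ y _ hxy
      exact add_right_injective z hxy
    rw [h2]
    refine Finset.sum_le_sum_of_subset_of_nonneg ?_ fun w _ _ =>
      Real.rpow_nonneg (W_nonneg P η _ w) _
    intro x hx
    obtain ⟨w, hw, rfl⟩ := Finset.mem_image.1 hx
    rw [mem_boxF] at hz hw ⊢
    intro i
    have h3 := abs_add_le (z i) (w i)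
    have h4 := hz i
    have h5 := hw i
    push_cast
    exact h3.trans (add_le_add h4 h5)
  · rw [W_zero P η m hz, Real.zero_rpow h0.ne', zero_mul]
    exact V_nonneg P η _

/-! ### Measurability and integrability -/

lemma measurable_W (P : Prm d) (n : ℕ) (x : Site d) : Measurable fun η : Env d => W P η n x :=
  (measurable_ZT _ _ _).const_mul _

lemma measurable_ZH (P : Prm d) (n : ℕ) : Measurable fun η : Env d => ZH P η n :=
  (measurable_Z _ _ _).const_mul _

lemma measurable_V (P : Prm d) (n : ℕ) : Measurable fun η : Env d => V P η n :=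
  Finset.measurable_sum _ fun x _ => (measurable_W P n x).pow_const _

lemma measurableSet_Lk (P : Prm d) (K : ℕ) (y : Site d) (U : ℝ) :
    MeasurableSet {η : Env d | Lk P K y U η} :=
  measurableSet_le measurable_const (measurable_W P K y)

lemma measurableSet_Gd (P : Prm d) (K : ℕ) (y : Site d) (U : ℝ) (j : ℕ) :
    MeasurableSet {η : Env d | Gd P K y U j η} := by
  have : {η : Env d | Gd P K y U j η} =
      ⋂ i ∈ Finset.range j, ⋂ z ∈ boxF d (i * K), (sh (i * K) z ⁻¹' {η | Lk P K y U η})ᶜ := by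
    ext η
    simp only [Gd, Set.mem_ofPred_eq, Set.mem_iInter, Finset.mem_range, Set.mem_compl_iff,
      Set.mem_preimage]
  rw [this]
  refine Finset.measurableSet_biInter _ fun i _ => Finset.measurableSet_biInter _ fun z _ => ?_
  exact (measurable_sh _ _ (measurableSet_Lk P K y U)).compl

variable {ρ : Measure ℝ} [IsProbabilityMeasure ρ]

lemma integrable_ZH (hd : 0 < d) (hρ : EM ρ) (P : Prm d) (n : ℕ) :
    Integrable (fun η => ZH P η n) (law d ρ) := by
  have h := ((concU hd hρ P.be P.h n).2 1 (by norm_num)).1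
  have h2 := h.const_mul (Real.exp (-((n : ℝ) * P.Lam)) * Real.exp (A ρ P.be P.h n))
  refine h2.congr (Eventually.of_forall fun η => ?_)
  have h3 : Z P.be P.h η n = Real.exp (X P.be P.h η n) := (Real.exp_log (Z_pos hd _ _ _ _)).symm
  simp only
  unfold ZH
  rw [h3, mul_assoc, ← Real.exp_add]
  congr 2
  ring

lemma int_of_le (hd : 0 < d) (hρ : EM ρ) (P : Prm d) {F : Env d → ℝ} (hF : Measurable F) {C : ℝ}
    {n : ℕ} (h0 : ∀ η, 0 ≤ F η) (h1 : ∀ η, F η ≤ C * (1 + ZH P η n)) :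
    Integrable F (law d ρ) := by
  have h2 : Integrable (fun η => C * (1 + ZH P η n)) (law d ρ) :=
    ((integrable_const (1 : ℝ)).add (integrable_ZH hd hρ P n)).const_mul C
  refine h2.mono' hF.aestronglyMeasurable (Eventually.of_forall fun η => ?_)
  rw [Real.norm_eq_abs, abs_of_nonneg (h0 η)]
  exact h1 η

lemma integrable_pow (hd : 0 < d) (hρ : EM ρ) (P : Prm d) (n : ℕ) {t : ℝ} (h0 : 0 ≤ t)
    (h1 : t ≤ 1) : Integrable (fun η => ZH P η n ^ t) (law d ρ) :=
  int_of_le hd hρ P (C := 1) (n := n) ((measurable_ZH P n).pow_const t)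
    (fun η => Real.rpow_nonneg (ZH_pos hd P η n).le _) fun η => by
      rw [one_mul]
      exact rpow_le_one_add (ZH_pos hd P η n).le h0 h1

lemma integrable_V (hd : 0 < d) (hρ : EM ρ) (P : Prm d) (h0 : 0 ≤ P.a) (h1 : P.a ≤ 1) (n : ℕ) :
    Integrable (fun η => V P η n) (law d ρ) :=
  int_of_le hd hρ P (measurable_V P n) (fun η => V_nonneg P η n) fun η => V_le' hd P h0 h1 η n

lemma prod_le (hd : 0 < d) (P : Prm d) (h0 : 0 ≤ P.a) (h1 : P.a ≤ 1) (η : Env d) (m n : ℕ)
    (z : Site d) : W P η m z ^ P.a * V P (sh m z η) n ≤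
      (2 * (n : ℝ) + 1) ^ d * (1 + ZH P η (m + n)) := by
  have h2 := V_le P h0 (sh m z η) n
  have h3 : W P η m z ^ P.a * ZH P (sh m z η) n ^ P.a ≤ 1 + ZH P η (m + n) := by
    rw [← Real.mul_rpow (W_nonneg _ _ _ _) (ZH_pos hd P _ n).le]
    refine (rpow_le_one_add (mul_nonneg (W_nonneg _ _ _ _) (ZH_pos hd P _ n).le) h0 h1).trans ?_
    have := chainZ P η m n z
    linarith
  calc W P η m z ^ P.a * V P (sh m z η) n
      ≤ W P η m z ^ P.a * ((2 * (n : ℝ) + 1) ^ d * ZH P (sh m z η) n ^ P.a) :=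
        mul_le_mul_of_nonneg_left h2 (Real.rpow_nonneg (W_nonneg _ _ _ _) _)
    _ = (2 * (n : ℝ) + 1) ^ d * (W P η m z ^ P.a * ZH P (sh m z η) n ^ P.a) := by ring
    _ ≤ _ := mul_le_mul_of_nonneg_left h3 (by positivity)

/-! ### Dependence -/

lemma dependsOn_W (P : Prm d) (n : ℕ) (x : Site d) :
    DependsOn (fun η : Env d => W P η n x) {p | 1 ≤ p.1 ∧ p.1 ≤ n ∧ p.2 ∈ boxF d n} := by
  classical
  intro η η' hη
  simp only
  unfold W PP ZT
  congr 1
  refine Finset.sum_congr rfl fun s _ => ?_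
  have h1 : energy η s = energy η' s := by
    unfold energy
    refine Finset.sum_congr rfl fun i _ => hη _ ?_
    exact ⟨by simp, i.2, pos_mem_box s _⟩
  unfold wgt
  rw [h1]

lemma dependsOn_Wr (P : Prm d) (n : ℕ) (x : Site d) :
    DependsOn (fun η : Env d => W P η n x) {p | p.1 ≤ n} :=
  fun _ _ h => dependsOn_W P n x fun p hp => h p hp.2.1

/-- A function of the rows `≥ 1` after the shift depends on the rows after `m`. -/
lemma dependsOn_sh {B : Type*} {G : Env d → B} (hG : DependsOn G {p | 1 ≤ p.1}) (m : ℕ)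
    (z : Site d) : DependsOn (fun η : Env d => G (sh m z η)) {p : ℕ × Site d | p.1 ≤ m}ᶜ := by
  intro η η' hη
  refine hG fun p hp => hη (p.1 + m, p.2 + z) ?_
  have : 1 ≤ p.1 := hp
  change ¬ (p.1 + m ≤ m)
  omega

lemma dependsOn_V (P : Prm d) (n : ℕ) : DependsOn (fun η : Env d => V P η n) {p | 1 ≤ p.1} := by
  intro η η' hη
  simp only
  unfold V
  refine Finset.sum_congr rfl fun x _ => ?_
  have h : W P η n x = W P η' n x := dependsOn_W P n x fun p hp => hη p hp.1
  rw [h]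

lemma dependsOn_Lk (P : Prm d) (K : ℕ) (y : Site d) (U : ℝ) :
    DependsOn (fun η : Env d => Lk P K y U η) {p | 1 ≤ p.1 ∧ p.1 ≤ K ∧ p.2 ∈ boxF d K} := by
  intro η η' hη
  simp only
  unfold Lk
  have h : W P η K y = W P η' K y := dependsOn_W P K y hη
  rw [h]

lemma dependsOn_Gd (P : Prm d) (K : ℕ) (y : Site d) (U : ℝ) (j : ℕ) :
    DependsOn (fun η : Env d => Gd P K y U j η) {p | 1 ≤ p.1 ∧ p.1 ≤ j * K} := by
  intro η η' hη
  simp only
  unfold Gd
  refine propext (forall_congr' fun i => forall_congr' fun hi => forall_congr' fun z =>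
    forall_congr' fun _ => not_congr (Eq.to_iff ?_))
  refine dependsOn_Lk P K y U fun p hp => hη (p.1 + i * K, p.2 + z) ?_
  have h1 : (i + 1) * K ≤ j * K := Nat.mul_le_mul_right _ hi
  have h2 := hp.1
  have h3 := hp.2.1
  constructor
  · change 1 ≤ p.1 + i * K
    omega
  · change p.1 + i * K ≤ j * K
    have : (i + 1) * K = i * K + K := by ring
    omega

lemma Gd_split (P : Prm d) {K : ℕ} {y : Site d} {U : ℝ} {i j : ℕ} {η : Env d}
    (h : Gd P K y U (i + j) η) : Gd P K y U i η ∧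
      ∀ z ∈ boxF d (i * K), Gd P K y U j (sh (i * K) z η) := by
  refine ⟨fun k hk z hz => h k (by omega) z hz, fun z hz k hk w hw => ?_⟩
  have h1 := h (i + k) (by omega) (z + w) ?_
  · have h2 : sh ((i + k) * K) (z + w) η = sh (k * K) w (sh (i * K) z η) := by
      funext p
      unfold sh
      congr 2
      · ring
      · rw [add_comm z w, add_assoc]
    rwa [h2] at h1
  · rw [mem_boxF] at hz hw ⊢
    intro l
    have h3 := abs_add_le (z l) (w l)
    have h4 := hz l
    have h5 := hw l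
    have h6 : (((i + k) * K : ℕ) : ℤ) = ((i * K : ℕ) : ℤ) + ((k * K : ℕ) : ℤ) := by
      push_cast; ring
    rw [h6]
    exact h3.trans (add_le_add h4 h5)

end Pool.Agent.W_7d29a1_P89
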