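import Pool.Agent.W_7d29a1_P89.GrowB
import Pool.Agent.W_7d29a1_P78.Fin

/-!
Theorem (P): the theorem in the frame of `h46u`.
-/

namespace Pool.Agent.W_7d29a1_P89

open MeasureTheory ProbabilityTheory Filter Topology Pool.Agent.W_MP_7d29a1_pr
  Pool.Agent.W_7d29a1_h46 Pool.Agent.W_7d29a1_h46u Pool.Agent.W_7d29a1_D2.B35

variable {d : ℕ} {ρ : Measure ℝ} [IsProbabilityMeasure ρ]

/-- In very strong disorder every moment of order `t ∈ (0, 1]` of the normalised partition function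
is larger than one for some length. -/
theorem mainP (hd : 0 < d) (hρ : EM ρ) (P : Prm d) (hL : P.Lam = lam ρ P.be P.h)
    (hvs : lam ρ P.be P.h < Real.log (∫ x, Real.exp (P.be * x) ∂ρ) +
      Real.log (∑ e : Step d, Real.exp (inner ℝ P.h (emb (vec e)))))
    {t : ℝ} (h0 : 0 < t) (h1 : t ≤ 1) : ∃ n, 1 < aP ρ P n t :=
  Pool.Agent.W_7d29a1_P78.mainP78 hd hρ P hL hvs
    (fun P h0 h1 m n => MP_sub hd hρ P h0 h1 m n)
    (fun P h0 h1 K y U i j => NP_sub hd hρ P h0 h1 K y U i j)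
    (fun P h0 h1 K y U L J _ hJ hq => growth hd hρ P h0 h1 y U hJ hq) h0 h1

end Pool.Agent.W_7d29a1_P89
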