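import Pool.Agent.W_7d29a1_D2.Blk35

/-!
Theorem (P): in very strong disorder all positive moments of the normalised partition function grow
exponentially. Definitions.
-/

namespace Pool.Agent.W_7d29a1_P89

open MeasureTheory ProbabilityTheory Filter Topology Pool.Agent.W_MP_7d29a1_pr
  Pool.Agent.W_7d29a1_h46 Pool.Agent.W_7d29a1_h46u Pool.Agent.W_7d29a1_D2.B35

/-- The parameters: normalisation per step, inverse temperature, tilt, exponent of the moments. -/
structure Prm (d : ℕ) where
  Lam : ℝ
  be : ℝ
  h : Vec d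
  a : ℝ

variable {d : ℕ}

/-- The normalised point to point partition function. -/
noncomputable def W (P : Prm d) (η : Env d) (n : ℕ) (x : Site d) : ℝ :=
  Real.exp (-((n : ℝ) * P.Lam)) * PP P.be P.h η n x

/-- The normalised partition function. -/
noncomputable def ZH (P : Prm d) (η : Env d) (n : ℕ) : ℝ :=
  Real.exp (-((n : ℝ) * P.Lam)) * Z P.be P.h η n

/-- The sum over the end points of the powers of the point to point partition functions. -/
noncomputable def V (P : Prm d) (η : Env d) (n : ℕ) : ℝ :=
  ∑ x ∈ boxF d n, W P η n x ^ P.a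

/-- The moments of the normalised partition function. -/
noncomputable def aP (ρ : Measure ℝ) (P : Prm d) (n : ℕ) (t : ℝ) : ℝ :=
  ∫ η, ZH P η n ^ t ∂(law d ρ)

/-- The mean of `V`. -/
noncomputable def MP (ρ : Measure ℝ) (P : Prm d) (n : ℕ) : ℝ :=
  ∫ η, V P η n ∂(law d ρ)

/-- The segment of length `K` from `0` to `y` is lucky: its weight is at least `e ^ U`. -/
def Lk (P : Prm d) (K : ℕ) (y : Site d) (U : ℝ) (η : Env d) : Prop :=
  Real.exp U ≤ W P η K y

/-- No lucky segment starts at the times `i K`, `i < j`, in the boxes. -/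
def Gd (P : Prm d) (K : ℕ) (y : Site d) (U : ℝ) (j : ℕ) (η : Env d) : Prop :=
  ∀ i < j, ∀ z ∈ boxF d (i * K), ¬ Lk P K y U (sh (i * K) z η)

open Classical in
/-- The mean of `V` without lucky segments. -/
noncomputable def NP (ρ : Measure ℝ) (P : Prm d) (K : ℕ) (y : Site d) (U : ℝ) (j : ℕ) : ℝ :=
  ∫ η, (if Gd P K y U j η then V P η (j * K) else 0) ∂(law d ρ)

end Pool.Agent.W_7d29a1_P89
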