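import Pool.Agent.W_7d29a1_P89.Sub

/-!
Theorem (P): the growth inequality (decomposition at the first lucky segment).
-/

namespace Pool.Agent.W_7d29a1_P89

open MeasureTheory ProbabilityTheory Filter Topology Pool.Agent.W_MP_7d29a1_pr
  Pool.Agent.W_7d29a1_h46 Pool.Agent.W_7d29a1_h46u Pool.Agent.W_7d29a1_D2.B35

variable {d : ℕ}

/-! ### Residue classes -/

/-- The residue class of a site modulo `2 K + 1`. -/
def rs (K : ℕ) (z : Site d) : Site d := fun i => z i % (2 * (K : ℤ) + 1)

/-- The residues. -/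
noncomputable def Rs (d K : ℕ) : Finset (Site d) :=
  Fintype.piFinset fun _ => Finset.Ico (0 : ℤ) (2 * K + 1)

lemma card_Rs (d K : ℕ) : (Rs d K).card = (2 * K + 1) ^ d := by
  unfold Rs
  rw [Fintype.card_piFinset]
  simp only [Int.card_Ico, Finset.prod_const, Finset.card_univ, Fintype.card_fin]
  congr 1

lemma rs_mem (K : ℕ) (z : Site d) : rs K z ∈ Rs d K := by
  unfold Rs rs
  rw [Fintype.mem_piFinset]
  intro i
  rw [Finset.mem_Ico]
  have h : (0 : ℤ) < 2 * (K : ℤ) + 1 := by positivity
  exact ⟨Int.emod_nonneg _ h.ne', Int.emod_lt_of_pos _ h⟩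

lemma rs_far {K : ℕ} {z z' : Site d} (h : rs K z = rs K z') (hne : z ≠ z') {x : Site d}
    (hx : x - z ∈ boxF d K) : x - z' ∉ boxF d K := by
  intro hx'
  apply hne
  funext i
  by_contra hi
  have h1 : z i % (2 * (K : ℤ) + 1) = z' i % (2 * (K : ℤ) + 1) := congrFun h i
  have h2 : (2 * (K : ℤ) + 1) ∣ z' i - z i := Int.ModEq.dvd h1
  obtain ⟨c, hc⟩ := h2
  have h3 := (mem_boxF.1 hx) i
  have h4 := (mem_boxF.1 hx') i
  simp only [Pi.sub_apply, abs_le] at h3 h4
  have hK : (0 : ℤ) ≤ K := Int.natCast_nonneg K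
  have hc0 : c ≠ 0 := by
    rintro rfl
    apply hi
    linarith
  rcases lt_or_gt_of_ne hc0 with hc1 | hc1
  · have : (2 * (K : ℤ) + 1) * c ≤ -(2 * (K : ℤ) + 1) := by nlinarith
    linarith
  · have : (2 * (K : ℤ) + 1) ≤ (2 * (K : ℤ) + 1) * c := by nlinarith
    linarith

variable {ρ : Measure ℝ} [IsProbabilityMeasure ρ]

/-- The probability of a lucky segment. -/
noncomputable def qP (ρ : Measure ℝ) (P : Prm d) (K : ℕ) (y : Site d) (U : ℝ) : ℝ :=
  (law d ρ).real {η | Lk P K y U η}

/-- The segment at `z` is lucky and the other segments of `A` are not. -/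
def Mid (P : Prm d) (K : ℕ) (y : Site d) (U : ℝ) (m : ℕ) (A : Finset (Site d)) (z : Site d)
    (η : Env d) : Prop :=
  Lk P K y U (sh m z η) ∧ ∀ z' ∈ A, z' ≠ z → ¬ Lk P K y U (sh m z' η)

lemma measurableSet_sLk (P : Prm d) (K : ℕ) (y : Site d) (U : ℝ) (m : ℕ) (z : Site d) :
    MeasurableSet {η : Env d | Lk P K y U (sh m z η)} :=
  measurable_sh m z (measurableSet_Lk P K y U)

lemma measurableSet_Mid (P : Prm d) (K : ℕ) (y : Site d) (U : ℝ) (m : ℕ) (A : Finset (Site d))
    (z : Site d) : MeasurableSet {η : Env d | Mid P K y U m A z η} := by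
  classical
  have : {η : Env d | Mid P K y U m A z η} = {η | Lk P K y U (sh m z η)} ∩
      ⋂ z' ∈ A.erase z, {η | Lk P K y U (sh m z' η)}ᶜ := by
    ext η
    simp only [Mid, Set.mem_ofPred_eq, Set.mem_inter_iff, Set.mem_iInter, Set.mem_compl_iff,
      Finset.mem_erase]
    constructor
    · rintro ⟨h1, h2⟩
      exact ⟨h1, fun z' hz' => h2 z' hz'.2 hz'.1⟩
    · rintro ⟨h1, h2⟩
      exact ⟨h1, fun z' hz' hne => h2 z' ⟨hne, hz'⟩⟩
  rw [this]
  exact (measurableSet_sLk P K y U m z).inter
    (Finset.measurableSet_biInter _ fun z' _ => (measurableSet_sLk P K y U m z').compl)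

open Classical in
/-- The indicator of a lucky segment. -/
noncomputable def ind (P : Prm d) (K : ℕ) (y : Site d) (U : ℝ) (m : ℕ) (z : Site d)
    (η : Env d) : ℝ := if Lk P K y U (sh m z η) then 1 else 0

lemma measurable_ind (P : Prm d) (K : ℕ) (y : Site d) (U : ℝ) (m : ℕ) (z : Site d) :
    Measurable (ind P K y U m z) :=
  Measurable.ite (measurableSet_sLk P K y U m z) measurable_const measurable_const

lemma ind_nonneg (P : Prm d) (K : ℕ) (y : Site d) (U : ℝ) (m : ℕ) (z : Site d) (η : Env d) :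
    0 ≤ ind P K y U m z η := by
  unfold ind
  split_ifs <;> norm_num

lemma ind_le_one (P : Prm d) (K : ℕ) (y : Site d) (U : ℝ) (m : ℕ) (z : Site d) (η : Env d) :
    ind P K y U m z η ≤ 1 := by
  unfold ind
  split_ifs <;> norm_num

lemma integral_ind (P : Prm d) (K : ℕ) (y : Site d) (U : ℝ) (m : ℕ) (z : Site d) :
    ∫ η, ind P K y U m z η ∂(law d ρ) = qP ρ P K y U := by
  classical
  have h1 : ∀ η : Env d, ind P K y U m z η =
      (fun ζ : Env d => if Lk P K y U ζ then (1 : ℝ) else 0) (sh m z η) := fun η => rfl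
  have h2 : Measurable fun ζ : Env d => if Lk P K y U ζ then (1 : ℝ) else 0 :=
    Measurable.ite (measurableSet_Lk P K y U) measurable_const measurable_const
  rw [integral_congr_ae (Eventually.of_forall h1), integral_sh m z h2]
  have h3 : (fun ζ : Env d => if Lk P K y U ζ then (1 : ℝ) else 0) =
      Set.indicator {ζ | Lk P K y U ζ} fun _ => (1 : ℝ) := by
    funext ζ
    simp only [Set.indicator, Set.mem_ofPred_eq]
  rw [h3, integral_indicator_const _ (measurableSet_Lk P K y U)]
  simp [qP]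

lemma dependsOn_ind (P : Prm d) (K : ℕ) (y : Site d) (U : ℝ) (m : ℕ) (z : Site d)
    {S : Set (ℕ × Site d)} (hS : ∀ p : ℕ × Site d, 1 ≤ p.1 → p.1 ≤ K → p.2 ∈ boxF d K →
      (p.1 + m, p.2 + z) ∈ S) : DependsOn (ind P K y U m z) S := by
  intro η η' hη
  have h : Lk P K y U (sh m z η) = Lk P K y U (sh m z η') :=
    dependsOn_Lk P K y U fun p hp => hη _ (hS p hp.1 hp.2.1 hp.2.2)
  unfold ind
  by_cases h1 : Lk P K y U (sh m z η)
  · have h2 : Lk P K y U (sh m z η') := by rwa [← h]
    rw [if_pos h1, if_pos h2]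
  · have h2 : ¬ Lk P K y U (sh m z η') := by rwa [← h]
    rw [if_neg h1, if_neg h2]

lemma integrable_ind (P : Prm d) (K : ℕ) (y : Site d) (U : ℝ) (m : ℕ) (z : Site d) :
    Integrable (ind P K y U m z) (law d ρ) := by
  refine Integrable.of_bound (measurable_ind P K y U m z).aestronglyMeasurable 1
    (Eventually.of_forall fun η => ?_)
  rw [Real.norm_eq_abs, abs_of_nonneg (ind_nonneg P K y U m z η)]
  exact ind_le_one P K y U m z η

lemma integral_ind2 (P : Prm d) (K : ℕ) (y : Site d) (U : ℝ) (m : ℕ) {z z' : Site d}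
    (h : rs K z = rs K z') (hne : z ≠ z') :
    ∫ η, ind P K y U m z η * ind P K y U m z' η ∂(law d ρ) = qP ρ P K y U * qP ρ P K y U := by
  have e := integral_indep (ρ := ρ) {p : ℕ × Site d | p.2 - z ∈ boxF d K}
    (F := ind P K y U m z) (G := ind P K y U m z') (measurable_ind P K y U m z)
    (measurable_ind P K y U m z')
    (dependsOn_ind P K y U m z fun p _ _ hp => by
      change (p.2 + z) - z ∈ boxF d K
      rwa [add_sub_cancel_right])
    (dependsOn_ind P K y U m z' fun p _ _ hp => by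
      change ¬ ((p.2 + z') - z ∈ boxF d K)
      refine rs_far h.symm hne.symm ?_
      rwa [add_sub_cancel_right])
  rw [e, integral_ind, integral_ind]

open Classical in
lemma mid_ge (P : Prm d) (K : ℕ) (y : Site d) (U : ℝ) (m : ℕ) {A : Finset (Site d)}
    (hA : ∀ z ∈ A, ∀ z' ∈ A, rs K z = rs K z') {z : Site d} (hz : z ∈ A)
    (hq : (A.card : ℝ) * qP ρ P K y U ≤ 1 / 4) :
    3 / 4 * qP ρ P K y U ≤ ∫ η, (if Mid P K y U m A z η then (1 : ℝ) else 0) ∂(law d ρ) := by
  set q := qP ρ P K y U with hqd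
  have hq0 : 0 ≤ q := measureReal_nonneg
  have hpt : ∀ η : Env d, ind P K y U m z η -
      ∑ z' ∈ A.erase z, ind P K y U m z η * ind P K y U m z' η ≤
        (if Mid P K y U m A z η then (1 : ℝ) else 0) := by
    intro η
    by_cases h1 : Mid P K y U m A z η
    · rw [if_pos h1]
      have h2 : 0 ≤ ∑ z' ∈ A.erase z, ind P K y U m z η * ind P K y U m z' η :=
        Finset.sum_nonneg fun z' _ => mul_nonneg (ind_nonneg _ _ _ _ _ _ _) (ind_nonneg _ _ _ _ _ _ _)
      have h3 := ind_le_one P K y U m z η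
      linarith
    · rw [if_neg h1]
      by_cases h2 : Lk P K y U (sh m z η)
      · have h3 : ∃ z' ∈ A, z' ≠ z ∧ Lk P K y U (sh m z' η) := by
          by_contra hcon
          push Not at hcon
          exact h1 ⟨h2, fun z' hz' hne => hcon z' hz' hne⟩
        obtain ⟨z', hz', hne, hl⟩ := h3
        have h4 : ind P K y U m z η * ind P K y U m z' η ≤
            ∑ z' ∈ A.erase z, ind P K y U m z η * ind P K y U m z' η :=
          Finset.single_le_sum (f := fun z' => ind P K y U m z η * ind P K y U m z' η)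
            (fun w _ => mul_nonneg (ind_nonneg _ _ _ _ _ _ _) (ind_nonneg _ _ _ _ _ _ _))
            (Finset.mem_erase.2 ⟨hne, hz'⟩)
        have h5 : ind P K y U m z η = 1 := if_pos h2
        have h6 : ind P K y U m z' η = 1 := if_pos hl
        rw [h5, h6, mul_one] at h4
        rw [h5]
        linarith
      · have h5 : ind P K y U m z η = 0 := if_neg h2
        rw [h5]
        simp
  have hint : ∀ z' ∈ A.erase z, Integrable (fun η => ind P K y U m z η * ind P K y U m z' η)
      (law d ρ) := by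
    intro z' _
    refine Integrable.of_bound
      ((measurable_ind P K y U m z).mul (measurable_ind P K y U m z')).aestronglyMeasurable 1
      (Eventually.of_forall fun η => ?_)
    rw [Real.norm_eq_abs, abs_of_nonneg (mul_nonneg (ind_nonneg _ _ _ _ _ _ _)
      (ind_nonneg _ _ _ _ _ _ _))]
    exact mul_le_one₀ (ind_le_one _ _ _ _ _ _ _) (ind_nonneg _ _ _ _ _ _ _)
      (ind_le_one _ _ _ _ _ _ _)
  have hintM : Integrable (fun η => if Mid P K y U m A z η then (1 : ℝ) else 0) (law d ρ) := by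
    refine Integrable.of_bound (Measurable.ite (measurableSet_Mid P K y U m A z)
      measurable_const measurable_const).aestronglyMeasurable 1 (Eventually.of_forall fun η => ?_)
    split_ifs <;> norm_num
  have hI := integral_mono ((integrable_ind (ρ := ρ) P K y U m z).sub
    (integrable_finsetSum _ hint)) hintM hpt
  refine le_trans ?_ hI
  have e1 : ∫ η, (ind P K y U m z - fun η => ∑ z' ∈ A.erase z,
      ind P K y U m z η * ind P K y U m z' η) η ∂(law d ρ) =
      q - ∑ z' ∈ A.erase z, q * q := by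
    simp only [Pi.sub_apply]
    rw [integral_sub (integrable_ind P K y U m z) (integrable_finsetSum _ hint),
      integral_finsetSum _ hint, integral_ind]
    congr 1
    refine Finset.sum_congr rfl fun z' hz' => ?_
    have h7 := Finset.mem_erase.1 hz'
    exact integral_ind2 P K y U m (hA z hz z' h7.2) h7.1.symm
  rw [e1]
  rw [Finset.sum_const, nsmul_eq_mul]
  have h8 : ((A.erase z).card : ℝ) ≤ A.card := by
    exact_mod_cast Finset.card_le_card (Finset.erase_subset z A)
  have h9 : ((A.erase z).card : ℝ) * (q * q) ≤ A.card * q * q := by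
    rw [mul_assoc]
    exact mul_le_mul_of_nonneg_right h8 (mul_nonneg hq0 hq0)
  have h10 : (A.card : ℝ) * q * q ≤ 1 / 4 * q := mul_le_mul_of_nonneg_right hq hq0
  linarith

lemma dependsOn_Mid (P : Prm d) (K : ℕ) (y : Site d) (U : ℝ) (m : ℕ) (A : Finset (Site d))
    (z : Site d) {S : Set (ℕ × Site d)} (hS : ∀ (p : ℕ × Site d) (w : Site d), 1 ≤ p.1 → p.1 ≤ K →
      (p.1 + m, p.2 + w) ∈ S) : DependsOn (fun η => Mid P K y U m A z η) S := by
  intro η η' hη
  have h : ∀ w : Site d, Lk P K y U (sh m w η) = Lk P K y U (sh m w η') := fun w =>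
    dependsOn_Lk P K y U fun p hp => hη _ (hS p w hp.1 hp.2.1)
  simp only
  unfold Mid
  simp only [h]

end Pool.Agent.W_7d29a1_P89
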