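import Pool.Agent.W_7d29a1_P89.Grow

/-!
Theorem (P): the growth inequality (decomposition at the first lucky segment), the proof.
-/

namespace Pool.Agent.W_7d29a1_P89

open MeasureTheory ProbabilityTheory Filter Topology Pool.Agent.W_MP_7d29a1_pr
  Pool.Agent.W_7d29a1_h46 Pool.Agent.W_7d29a1_h46u Pool.Agent.W_7d29a1_D2.B35

variable {d : ℕ}

open Classical in
/-- The past before the lucky segment. -/
noncomputable def F1 (P : Prm d) (K : ℕ) (y : Site d) (U : ℝ) (j : ℕ) (z : Site d)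
    (η : Env d) : ℝ := if Gd P K y U j η then W P η (j * K) z ^ P.a else 0

open Classical in
/-- The lucky segment. -/
noncomputable def F2 (P : Prm d) (K : ℕ) (y : Site d) (U : ℝ) (j : ℕ) (A : Finset (Site d))
    (z : Site d) (η : Env d) : ℝ := if Mid P K y U (j * K) A z η then 1 else 0

/-- The future after the lucky segment. -/
noncomputable def F3 (P : Prm d) (K : ℕ) (y : Site d) (L j : ℕ) (z : Site d) (η : Env d) : ℝ :=
  V P (sh ((j + 1) * K) (z + y) η) (L - (j + 1) * K)

lemma F1_nonneg (P : Prm d) (K : ℕ) (y : Site d) (U : ℝ) (j : ℕ) (z : Site d) (η : Env d) :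
    0 ≤ F1 P K y U j z η := by
  unfold F1
  split_ifs
  · exact Real.rpow_nonneg (W_nonneg _ _ _ _) _
  · exact le_rfl

lemma F2_nonneg (P : Prm d) (K : ℕ) (y : Site d) (U : ℝ) (j : ℕ) (A : Finset (Site d))
    (z : Site d) (η : Env d) : 0 ≤ F2 P K y U j A z η := by
  unfold F2
  split_ifs <;> norm_num

lemma F3_nonneg (P : Prm d) (K : ℕ) (y : Site d) (L j : ℕ) (z : Site d) (η : Env d) :
    0 ≤ F3 P K y L j z η := V_nonneg _ _ _

lemma measurable_F1 (P : Prm d) (K : ℕ) (y : Site d) (U : ℝ) (j : ℕ) (z : Site d) :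
    Measurable (F1 P K y U j z) :=
  Measurable.ite (measurableSet_Gd P K y U j) ((measurable_W P _ z).pow_const _) measurable_const

lemma measurable_F2 (P : Prm d) (K : ℕ) (y : Site d) (U : ℝ) (j : ℕ) (A : Finset (Site d))
    (z : Site d) : Measurable (F2 P K y U j A z) :=
  Measurable.ite (measurableSet_Mid P K y U _ A z) measurable_const measurable_const

lemma measurable_F3 (P : Prm d) (K : ℕ) (y : Site d) (L j : ℕ) (z : Site d) :
    Measurable (F3 P K y L j z) := (measurable_V P _).comp (measurable_sh _ _)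

lemma dep_F1 (P : Prm d) (K : ℕ) (y : Site d) (U : ℝ) (j : ℕ) (z : Site d) :
    DependsOn (F1 P K y U j z) {p | p.1 ≤ j * K} := by
  intro η η' hη
  have e1 : Gd P K y U j η = Gd P K y U j η' := dependsOn_Gd P K y U j fun p hp => hη p hp.2
  have e2 : W P η (j * K) z = W P η' (j * K) z := dependsOn_Wr P _ z hη
  unfold F1
  by_cases h1 : Gd P K y U j η
  · have h2 : Gd P K y U j η' := by rwa [← e1]
    rw [if_pos h1, if_pos h2, e2]
  · have h2 : ¬ Gd P K y U j η' := by rwa [← e1]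
    rw [if_neg h1, if_neg h2]

lemma dep_F2 (P : Prm d) (K : ℕ) (y : Site d) (U : ℝ) (j : ℕ) (A : Finset (Site d))
    (z : Site d) {S : Set (ℕ × Site d)} (hS : ∀ (p : ℕ × Site d) (w : Site d), 1 ≤ p.1 → p.1 ≤ K →
      (p.1 + j * K, p.2 + w) ∈ S) : DependsOn (F2 P K y U j A z) S := by
  intro η η' hη
  have e1 : Mid P K y U (j * K) A z η = Mid P K y U (j * K) A z η' :=
    dependsOn_Mid P K y U (j * K) A z hS hη
  unfold F2
  by_cases h1 : Mid P K y U (j * K) A z η
  · have h2 : Mid P K y U (j * K) A z η' := by rwa [← e1]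
    rw [if_pos h1, if_pos h2]
  · have h2 : ¬ Mid P K y U (j * K) A z η' := by rwa [← e1]
    rw [if_neg h1, if_neg h2]

variable {ρ : Measure ℝ} [IsProbabilityMeasure ρ]

/-- The three pieces are independent. -/
lemma int_prod3 (P : Prm d) (K : ℕ) (y : Site d) (U : ℝ) (L j : ℕ) (A : Finset (Site d))
    (z : Site d) : ∫ η, F1 P K y U j z η * F2 P K y U j A z η * F3 P K y L j z η ∂(law d ρ) =
      (∫ η, F1 P K y U j z η ∂(law d ρ)) * (∫ η, F2 P K y U j A z η ∂(law d ρ)) *
        MP ρ P (L - (j + 1) * K) := by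
  have hjK : (j + 1) * K = j * K + K := by ring
  have e1 := integral_indep (ρ := ρ) {p : ℕ × Site d | p.1 ≤ (j + 1) * K}
    (F := fun η => F1 P K y U j z η * F2 P K y U j A z η) (G := F3 P K y L j z)
    ((measurable_F1 P K y U j z).mul (measurable_F2 P K y U j A z)) (measurable_F3 P K y L j z)
    (fun η η' hη => by
      have a1 : F1 P K y U j z η = F1 P K y U j z η' := dep_F1 P K y U j z fun p hp =>
        hη p (by
          change p.1 ≤ (j + 1) * K
          have : p.1 ≤ j * K := hp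
          omega)
      have a2 : F2 P K y U j A z η = F2 P K y U j A z η' :=
        dep_F2 P K y U j A z (S := {p : ℕ × Site d | p.1 ≤ (j + 1) * K}) (fun p w _ h2 => by
          change p.1 + j * K ≤ (j + 1) * K
          omega) hη
      simp only [a1, a2])
    (dependsOn_sh (dependsOn_V P _) _ _)
  have e2 := integral_indep (ρ := ρ) {p : ℕ × Site d | p.1 ≤ j * K}
    (F := F1 P K y U j z) (G := F2 P K y U j A z)
    (measurable_F1 P K y U j z) (measurable_F2 P K y U j A z) (dep_F1 P K y U j z)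
    (dep_F2 P K y U j A z fun p w h1 _ => by
      change ¬ (p.1 + j * K ≤ j * K)
      omega)
  have e3 : ∫ η, F3 P K y L j z η ∂(law d ρ) = MP ρ P (L - (j + 1) * K) :=
    integral_sh (ρ := ρ) ((j + 1) * K) (z + y) (measurable_V P (L - (j + 1) * K))
  rw [e1, e2, e3]

lemma integrable_F1 (hd : 0 < d) (hρ : EM ρ) (P : Prm d) (h0 : 0 < P.a) (h1 : P.a ≤ 1) (K : ℕ)
    (y : Site d) (U : ℝ) (j : ℕ) (z : Site d) : Integrable (F1 P K y U j z) (law d ρ) := by
  refine int_of_le hd hρ P (n := j * K) (C := 1) (measurable_F1 P K y U j z)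
    (F1_nonneg P K y U j z) fun η => ?_
  rw [one_mul]
  have h2 := rpow_le_one_add (W_nonneg P η (j * K) z) h0.le h1
  have h3 := W_le_ZH P η (j * K) z
  have h4 := ZH_pos hd P η (j * K)
  unfold F1
  split_ifs
  · linarith
  · linarith

/-- One residue class carries its share. -/
lemma coset (hd : 0 < d) (hρ : EM ρ) (P : Prm d) (h0 : 0 < P.a) (h1 : P.a ≤ 1) (K : ℕ)
    (y : Site d) (U : ℝ) (j : ℕ) : ∃ c ∈ Rs d K, NP ρ P K y U j / (2 * (K : ℝ) + 1) ^ d ≤
      ∑ z ∈ (boxF d (j * K)).filter (fun z => rs K z = c), ∫ η, F1 P K y U j z η ∂(law d ρ) := by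
  classical
  have hne : (Rs d K).Nonempty := ⟨rs K 0, rs_mem K 0⟩
  refine Finset.exists_le_of_sum_le hne ?_
  rw [Finset.sum_const, nsmul_eq_mul, card_Rs,
    Finset.sum_fiberwise_of_maps_to (fun z _ => rs_mem K z)]
  have e1 : ∑ z ∈ boxF d (j * K), ∫ η, F1 P K y U j z η ∂(law d ρ) = NP ρ P K y U j := by
    rw [← integral_finsetSum _ fun z _ => integrable_F1 hd hρ P h0 h1 K y U j z]
    unfold NP
    refine integral_congr_ae (Eventually.of_forall fun η => ?_)
    beta_reduce
    unfold F1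
    by_cases hA : Gd P K y U j η
    · simp only [if_pos hA]
      rfl
    · simp only [if_neg hA, Finset.sum_const_zero]
  rw [e1]
  push_cast
  have h2 : (0 : ℝ) < (2 * (K : ℝ) + 1) ^ d := by positivity
  rw [mul_div_cancel₀ _ h2.ne']

theorem growth (hd : 0 < d) (hρ : EM ρ) (P : Prm d) (h0 : 0 < P.a) (h1 : P.a ≤ 1) {K : ℕ}
    (y : Site d) (U : ℝ) {L J : ℕ} (hJ : J * K ≤ L)
    (hq : (2 * (L : ℝ) + 1) ^ d * qP ρ P K y U ≤ 1 / 4) :
    ∑ j ∈ Finset.range J, (3 / 4 / (2 * (K : ℝ) + 1) ^ d * Real.exp (P.a * U) * qP ρ P K y U) *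
      NP ρ P K y U j * MP ρ P (L - (j + 1) * K) ≤ MP ρ P L := by
  classical
  have hc := fun j => coset (ρ := ρ) hd hρ P h0 h1 K y U j
  choose c hcR hcs using hc
  set A : ℕ → Finset (Site d) := fun j => (boxF d (j * K)).filter (fun z => rs K z = c j) with hA
  have hAbox : ∀ j z, z ∈ A j → z ∈ boxF d (j * K) := fun j z hz => (Finset.mem_filter.1 hz).1
  have hAcos : ∀ j, ∀ z ∈ A j, ∀ z' ∈ A j, rs K z = rs K z' := fun j z hz z' hz' =>
    (Finset.mem_filter.1 hz).2.trans (Finset.mem_filter.1 hz').2.symm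
  set q := qP ρ P K y U with hqd
  have hq0 : 0 ≤ q := measureReal_nonneg
  have hlen : ∀ j, j < J → (j + 1) * K ≤ L := fun j hj =>
    (Nat.mul_le_mul_right K hj).trans hJ
  have hcard : ∀ j, j < J → ((A j).card : ℝ) * q ≤ 1 / 4 := by
    intro j hj
    refine le_trans (mul_le_mul_of_nonneg_right ?_ hq0) hq
    have h2 : (A j).card ≤ (2 * (j * K) + 1) ^ d := by
      rw [← card_boxF]
      exact Finset.card_le_card (Finset.filter_subset _ _)
    have h3 : j * K ≤ L := by
      have := hlen j hj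
      have e : (j + 1) * K = j * K + K := by ring
      omega
    calc ((A j).card : ℝ) ≤ (((2 * (j * K) + 1) ^ d : ℕ) : ℝ) := by exact_mod_cast h2
      _ ≤ (2 * (L : ℝ) + 1) ^ d := by
        push_cast
        refine pow_le_pow_left₀ (by positivity) ?_ d
        have : ((j : ℝ) * K) ≤ L := by exact_mod_cast h3
        linarith
  -- the pieces
  set v : (_ : ℕ) × Site d → Env d → ℝ := fun p η =>
    if Gd P K y U p.1 η ∧ Mid P K y U (p.1 * K) (A p.1) p.2 η then
      Real.exp (P.a * U) * W P η (p.1 * K) p.2 ^ P.a * F3 P K y L p.1 p.2 η else 0 with hv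
  have hv_eq : ∀ p η, v p η = Real.exp (P.a * U) * (F1 P K y U p.1 p.2 η *
      F2 P K y U p.1 (A p.1) p.2 η * F3 P K y L p.1 p.2 η) := by
    intro p η
    simp only [hv]
    unfold F1 F2
    by_cases hg : Gd P K y U p.1 η
    · by_cases hm : Mid P K y U (p.1 * K) (A p.1) p.2 η
      · rw [if_pos ⟨hg, hm⟩, if_pos hg, if_pos hm]
        ring
      · rw [if_neg (fun h => hm h.2), if_neg hm]
        ring
    · rw [if_neg (fun h => hg h.1), if_neg hg]
      ring
  have hv0 : ∀ p η, 0 ≤ v p η := fun p η => by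
    rw [hv_eq]
    exact mul_nonneg (Real.exp_pos _).le (mul_nonneg (mul_nonneg (F1_nonneg _ _ _ _ _ _ _)
      (F2_nonneg _ _ _ _ _ _ _ _)) (F3_nonneg _ _ _ _ _ _ _))
  have hvm : ∀ p, Measurable (v p) := fun p => by
    have : v p = fun η => Real.exp (P.a * U) * (F1 P K y U p.1 p.2 η *
      F2 P K y U p.1 (A p.1) p.2 η * F3 P K y L p.1 p.2 η) := funext (hv_eq p)
    rw [this]
    exact (((measurable_F1 P K y U p.1 p.2).mul (measurable_F2 P K y U p.1 (A p.1) p.2)).mul
      (measurable_F3 P K y L p.1 p.2)).const_mul _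
  have hvle : ∀ p : (_ : ℕ) × Site d, p.1 < J → ∀ η, v p η ≤ V P η L := by
    intro p hp η
    simp only [hv]
    split_ifs with h
    · obtain ⟨_, hm⟩ := h
      have hl : Real.exp U ≤ W P (sh (p.1 * K) p.2 η) K y := hm.1
      have h2 : W P η (p.1 * K) p.2 * Real.exp U ≤ W P η ((p.1 + 1) * K) (p.2 + y) := by
        have h3 := W_chain P η (p.1 * K) K p.2 y
        have e : (p.1 + 1) * K = p.1 * K + K := by ring
        rw [e]
        exact (mul_le_mul_of_nonneg_left hl (W_nonneg _ _ _ _)).trans h3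
      have h4 : Real.exp (P.a * U) * W P η (p.1 * K) p.2 ^ P.a ≤
          W P η ((p.1 + 1) * K) (p.2 + y) ^ P.a := by
        have h5 := Real.rpow_le_rpow (mul_nonneg (W_nonneg P η (p.1 * K) p.2)
          (Real.exp_pos U).le) h2 h0.le
        rw [Real.mul_rpow (W_nonneg _ _ _ _) (Real.exp_pos U).le, ← Real.exp_mul] at h5
        rw [mul_comm P.a U, mul_comm]
        exact h5
      have h6 := V_chain P h0 η ((p.1 + 1) * K) (L - (p.1 + 1) * K) (p.2 + y)
      rw [Nat.add_sub_cancel' (hlen p.1 hp)] at h6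
      exact (mul_le_mul_of_nonneg_right h4 (V_nonneg _ _ _)).trans h6
    · exact V_nonneg _ _ _
  have hvi : ∀ p ∈ (Finset.range J).sigma A, Integrable (v p) (law d ρ) := by
    intro p hp
    have hpJ : p.1 < J := Finset.mem_range.1 (Finset.mem_sigma.1 hp).1
    exact int_of_le hd hρ P (n := L) (C := (2 * (L : ℝ) + 1) ^ d) (hvm p) (hv0 p)
      fun η => (hvle p hpJ η).trans (V_le' hd P h0.le h1 η L)
  have hpt : ∀ η, ∑ p ∈ (Finset.range J).sigma A, v p η ≤ V P η L := by
    intro η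
    by_cases hex : ∃ p ∈ (Finset.range J).sigma A,
        Gd P K y U p.1 η ∧ Mid P K y U (p.1 * K) (A p.1) p.2 η
    · obtain ⟨p, hp, hg, hm⟩ := hex
      have hpJ : p.1 < J := Finset.mem_range.1 (Finset.mem_sigma.1 hp).1
      have hpA : p.2 ∈ A p.1 := (Finset.mem_sigma.1 hp).2
      rw [Finset.sum_eq_single p]
      · exact hvle p hpJ η
      · intro p' hp' hne
        have hpA' : p'.2 ∈ A p'.1 := (Finset.mem_sigma.1 hp').2
        simp only [hv]
        refine if_neg ?_
        rintro ⟨hg', hm'⟩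
        rcases lt_trichotomy p.1 p'.1 with hlt | heq | hgt
        · exact hg' p.1 hlt p.2 (hAbox _ _ hpA) hm.1
        · obtain ⟨j, z⟩ := p
          obtain ⟨j', z'⟩ := p'
          simp only at heq
          subst heq
          have hzz : z' ≠ z := fun h => hne (by rw [h])
          exact hm.2 z' hpA' hzz hm'.1
        · exact hg p'.1 hgt p'.2 (hAbox _ _ hpA') hm'.1
      · intro h
        exact absurd hp h
    · push Not at hex
      have : ∑ p ∈ (Finset.range J).sigma A, v p η = 0 := by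
        refine Finset.sum_eq_zero fun p hp => ?_
        simp only [hv]
        exact if_neg fun h => hex p hp h.1 h.2
      rw [this]
      exact V_nonneg _ _ _
  have hI : ∑ p ∈ (Finset.range J).sigma A, ∫ η, v p η ∂(law d ρ) ≤ MP ρ P L := by
    rw [← integral_finsetSum _ hvi]
    exact integral_mono (integrable_finsetSum _ hvi) (integrable_V hd hρ P h0.le h1 L) hpt
  refine le_trans ?_ hI
  rw [Finset.sum_sigma]
  refine Finset.sum_le_sum fun j hj => ?_
  have hjJ : j < J := Finset.mem_range.1 hj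
  have hM0 : 0 ≤ MP ρ P (L - (j + 1) * K) := MP_nonneg P _
  have hterm : ∀ z ∈ A j, (3 / 4 * Real.exp (P.a * U) * q * MP ρ P (L - (j + 1) * K)) *
      ∫ η, F1 P K y U j z η ∂(law d ρ) ≤ ∫ η, v ⟨j, z⟩ η ∂(law d ρ) := by
    intro z hz
    have e1 : ∫ η, v ⟨j, z⟩ η ∂(law d ρ) = Real.exp (P.a * U) *
        ((∫ η, F1 P K y U j z η ∂(law d ρ)) * (∫ η, F2 P K y U j (A j) z η ∂(law d ρ)) *
          MP ρ P (L - (j + 1) * K)) := by
      rw [← int_prod3, ← integral_const_mul]
      exact integral_congr_ae (Eventually.of_forall fun η => hv_eq ⟨j, z⟩ η)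
    rw [e1]
    have h5 : 3 / 4 * q ≤ ∫ η, F2 P K y U j (A j) z η ∂(law d ρ) :=
      mid_ge (ρ := ρ) P K y U (j * K) (hAcos j) hz (hcard j hjJ)
    have h6 : 0 ≤ ∫ η, F1 P K y U j z η ∂(law d ρ) :=
      integral_nonneg fun η => F1_nonneg P K y U j z η
    have h7 : 0 ≤ Real.exp (P.a * U) * ((∫ η, F1 P K y U j z η ∂(law d ρ)) *
        MP ρ P (L - (j + 1) * K)) := mul_nonneg (Real.exp_pos _).le (mul_nonneg h6 hM0)
    calc (3 / 4 * Real.exp (P.a * U) * q * MP ρ P (L - (j + 1) * K)) *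
          ∫ η, F1 P K y U j z η ∂(law d ρ)
        = (3 / 4 * q) * (Real.exp (P.a * U) * ((∫ η, F1 P K y U j z η ∂(law d ρ)) *
          MP ρ P (L - (j + 1) * K))) := by ring
      _ ≤ (∫ η, F2 P K y U j (A j) z η ∂(law d ρ)) * (Real.exp (P.a * U) *
          ((∫ η, F1 P K y U j z η ∂(law d ρ)) * MP ρ P (L - (j + 1) * K))) :=
          mul_le_mul_of_nonneg_right h5 h7
      _ = _ := by ring
  refine le_trans ?_ (Finset.sum_le_sum hterm)
  rw [← Finset.mul_sum]
  have h8 : 0 ≤ 3 / 4 * Real.exp (P.a * U) * q * MP ρ P (L - (j + 1) * K) := by positivity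
  calc (3 / 4 / (2 * (K : ℝ) + 1) ^ d * Real.exp (P.a * U) * q) * NP ρ P K y U j *
        MP ρ P (L - (j + 1) * K)
      = (3 / 4 * Real.exp (P.a * U) * q * MP ρ P (L - (j + 1) * K)) *
        (NP ρ P K y U j / (2 * (K : ℝ) + 1) ^ d) := by ring
    _ ≤ _ := mul_le_mul_of_nonneg_left (hcs j) h8

end Pool.Agent.W_7d29a1_P89
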