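import Pool.Agent.W_7d29a1_P78.C3
import Pool.Agent.W_7d29a1_Q29.Defs29

/-!
Lucky segments starting from an atom of the end point.
-/

set_option autoImplicit false

namespace Pool.Agent.W_7d29a1_P89

open MeasureTheory ProbabilityTheory Filter Topology Pool.Agent.W_MP_7d29a1_pr
  Pool.Agent.W_7d29a1_h46 Pool.Agent.W_7d29a1_h46u Pool.Agent.W_7d29a1_D2.B35
  Pool.Agent.W_7d29a1_Q29 Pool.Agent.W_7d29a1_P78

variable {d : ℕ} {ρ : Measure ℝ}

lemma depInd78 {A : Set (Env d)} {S : Set (ℕ × Site d)}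
    (h : DependsOn (fun η : Env d => η ∈ A) S) :
    DependsOn (A.indicator fun _ => (1 : ℝ)) S := by
  classical
  intro η η' hη
  have h1 : (η ∈ A) = (η' ∈ A) := h hη
  by_cases hm : η ∈ A
  · have hm' : η' ∈ A := h1 ▸ hm
    rw [Set.indicator_of_mem hm, Set.indicator_of_mem hm']
  · have hm' : η' ∉ A := by
      intro hc
      exact hm (h1 ▸ hc)
    rw [Set.indicator_of_notMem hm, Set.indicator_of_notMem hm']

/-- Past events `At y` and future events `L y` of probability at least `p`. -/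
theorem lucF78 [IsProbabilityMeasure ρ] (S : Set (ℕ × Site d)) {At L : Site d → Set (Env d)}
    (hAm : ∀ y, MeasurableSet (At y)) (hAd : ∀ y, DependsOn (fun η : Env d => η ∈ At y) S)
    (hLm : ∀ y, MeasurableSet (L y)) (hLd : ∀ y, DependsOn (fun η : Env d => η ∈ L y) Sᶜ)
    {p : ℝ} (hp : ∀ y, p ≤ (law d ρ).real (L y)) (s : Finset (Site d)) :
    p * (law d ρ).real {η | ∃ y ∈ s, η ∈ At y} ≤
      (law d ρ).real {η | ∃ y ∈ s, η ∈ At y ∧ η ∈ L y} := by
  classical
  induction s using Finset.induction_on with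
  | empty => simp
  | insert a s ha ih =>
    set A : Set (Env d) := {η | ∃ y ∈ s, η ∈ At y} with hA
    set B : Set (Env d) := {η | ∃ y ∈ s, η ∈ At y ∧ η ∈ L y} with hB
    have hAmm : MeasurableSet A := by
      have : A = ⋃ y ∈ s, At y := by
        ext η
        simp [hA]
      rw [this]
      exact Finset.measurableSet_biUnion _ fun y _ => hAm y
    have hAdd : DependsOn (fun η : Env d => η ∈ A) S := by
      intro η η' hη
      simp only [hA, Set.mem_setOf_eq]
      refine propext (exists_congr fun y => and_congr_right fun _ => ?_)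
      exact iff_of_eq (hAd y hη)
    have hDm : MeasurableSet (At a \ A) := (hAm a).diff hAmm
    have hDd : DependsOn (fun η : Env d => η ∈ At a \ A) S := by
      intro η η' hη
      have h1 : (η ∈ At a) = (η' ∈ At a) := hAd a hη
      have h2 : (η ∈ A) = (η' ∈ A) := hAdd hη
      simp only [Set.mem_diff]
      rw [h1, h2]
    have hind := real_indep78 (ρ := ρ) S hDm (hLm a) (depInd78 hDd) (depInd78 (hLd a))
    have hset : {η : Env d | ∃ y ∈ insert a s, η ∈ At y} = A ∪ (At a \ A) := by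
      ext η
      simp only [Set.mem_setOf_eq, Finset.mem_insert, Set.mem_union, Set.mem_diff, hA]
      constructor
      · rintro ⟨y, hy | hy, h⟩
        · subst hy
          by_cases h2 : ∃ y ∈ s, η ∈ At y
          · exact Or.inl h2
          · exact Or.inr ⟨h, h2⟩
        · exact Or.inl ⟨y, hy, h⟩
      · rintro (⟨y, hy, h⟩ | ⟨h, _⟩)
        · exact ⟨y, Or.inr hy, h⟩
        · exact ⟨a, Or.inl rfl, h⟩
    have hdis : Disjoint A (At a \ A) := Set.disjoint_sdiff_right
    have h1 : (law d ρ).real {η : Env d | ∃ y ∈ insert a s, η ∈ At y} =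
        (law d ρ).real A + (law d ρ).real (At a \ A) := by
      rw [hset, measureReal_union hdis hDm]
    have hBA : B ⊆ A := by
      rintro η ⟨y, hy, h, _⟩
      exact ⟨y, hy, h⟩
    have hdis2 : Disjoint B ((At a \ A) ∩ L a) :=
      Set.disjoint_left.2 fun η hb hc => hc.1.2 (hBA hb)
    have h2 : (law d ρ).real B + (law d ρ).real ((At a \ A) ∩ L a) ≤
        (law d ρ).real {η : Env d | ∃ y ∈ insert a s, η ∈ At y ∧ η ∈ L y} := by
      rw [← measureReal_union hdis2 (hDm.inter (hLm a))]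
      refine measureReal_mono ?_
      rintro η (⟨y, hy, h, h'⟩ | ⟨⟨h, _⟩, h'⟩)
      · exact ⟨y, Finset.mem_insert_of_mem hy, h, h'⟩
      · exact ⟨a, Finset.mem_insert_self a s, h, h'⟩
    rw [h1, mul_add]
    refine le_trans (add_le_add ih ?_) h2
    rw [hind, mul_comm]
    exact mul_le_mul_of_nonneg_left (hp a) measureReal_nonneg

/-- **Lucky from the atom.** -/
theorem luc78 [IsProbabilityMeasure ρ] (P : Prm d) (c0 : ℝ) (t K : ℕ) (z0 : Site d) (U : ℝ)
    {G : Set (Env d)} (hGm : MeasurableSet G) (hG : DependsOn (fun η : Env d => η ∈ G) (Pa d t)) :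
    (law d ρ).real {η : Env d | Lk P K z0 U η} * (law d ρ).real {η : Env d |
        (∃ y ∈ boxF d t, c0 * Z P.be P.h η t ≤ PP P.be P.h η t y) ∧ η ∈ G} ≤
      (law d ρ).real {η : Env d | (∃ y ∈ boxF d t, c0 * Z P.be P.h η t ≤ PP P.be P.h η t y ∧
        Real.exp (K * P.Lam + U) * PP P.be P.h η t y ≤ PP P.be P.h η (t + K) (y + z0)) ∧
        η ∈ G} := by
  classical
  set At : Site d → Set (Env d) := fun y =>
    {η | c0 * Z P.be P.h η t ≤ PP P.be P.h η t y ∧ η ∈ G} with hAt
  set L : Site d → Set (Env d) := fun y => sh t y ⁻¹' {η | Lk P K z0 U η} with hL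
  have hLkm : MeasurableSet {η : Env d | Lk P K z0 U η} := measurableSet_Lk78 P K z0 U
  have hAm : ∀ y, MeasurableSet (At y) := fun y =>
    (measurableSet_le ((measurable_ZT P.be P.h _).const_mul c0) (measurable_ZT P.be P.h _)).inter
      hGm
  have hZd : ∀ (y : Site d), DependsOn (fun η : Env d => PP P.be P.h η t y) (Pa d t) := by
    intro y η η' hη
    have h := dependsOn_W78 P t y fun p (hp : p ∈ {p : ℕ × Site d | 1 ≤ p.1 ∧ p.1 ≤ t}) =>
      hη p hp.2
    have h' : Real.exp (-((t : ℝ) * P.Lam)) * PP P.be P.h η t y =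
      Real.exp (-((t : ℝ) * P.Lam)) * PP P.be P.h η' t y := h
    exact mul_left_cancel₀ (Real.exp_pos _).ne' h'
  have hZd2 : DependsOn (fun η : Env d => Z P.be P.h η t) (Pa d t) := by
    intro η η' hη
    simp only [Z_eq_sum]
    exact Finset.sum_congr rfl fun y _ => hZd y hη
  have hAd : ∀ y, DependsOn (fun η : Env d => η ∈ At y) (Pa d t) := by
    intro y η η' hη
    have h1 : PP P.be P.h η t y = PP P.be P.h η' t y := hZd y hη
    have h2 : Z P.be P.h η t = Z P.be P.h η' t := hZd2 hη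
    have h3 : (η ∈ G) = (η' ∈ G) := hG hη
    simp only [hAt, Set.mem_setOf_eq]
    rw [h1, h2, h3]
  have hLm : ∀ y, MeasurableSet (L y) := fun y => hLkm.preimage (measurable_sh t y)
  have hLd : ∀ y, DependsOn (fun η : Env d => η ∈ L y) (Pa d t)ᶜ := by
    intro y η η' hη
    have hh : ∀ p ∈ {p : ℕ × Site d | 1 ≤ p.1 ∧ p.1 ≤ K}, sh t y η p = sh t y η' p := by
      intro p hp
      refine hη (p.1 + t, p.2 + y) ?_
      have hp1 : 1 ≤ p.1 := hp.1
      change ¬ (p.1 + t ≤ t)
      omega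
    have h' : W P (sh t y η) K z0 = W P (sh t y η') K z0 := dependsOn_W78 P K z0 hh
    change (Real.exp U ≤ W P (sh t y η) K z0) = (Real.exp U ≤ W P (sh t y η') K z0)
    rw [h']
  have hp : ∀ y, (law d ρ).real {η : Env d | Lk P K z0 U η} ≤ (law d ρ).real (L y) := by
    intro y
    have hmp := mp_sh (ρ := ρ) t y
    rw [hL, measureReal_def, measureReal_def, hmp.measure_preimage hLkm.nullMeasurableSet]
  have hmain := lucF78 (ρ := ρ) (Pa d t) hAm hAd hLm hLd hp (boxF d t)
  have e1 : {η : Env d | (∃ y ∈ boxF d t, c0 * Z P.be P.h η t ≤ PP P.be P.h η t y) ∧ η ∈ G} =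
      {η | ∃ y ∈ boxF d t, η ∈ At y} := by
    ext η
    simp only [Set.mem_setOf_eq, hAt]
    constructor
    · rintro ⟨⟨y, hy, h⟩, hg⟩
      exact ⟨y, hy, h, hg⟩
    · rintro ⟨y, hy, h, hg⟩
      exact ⟨⟨y, hy, h⟩, hg⟩
  rw [e1]
  refine hmain.trans (measureReal_mono ?_)
  rintro η ⟨y, hy, ⟨h1, hg⟩, h2⟩
  refine ⟨⟨y, hy, h1, ?_⟩, hg⟩
  have h3 : Real.exp U ≤ Real.exp (-((K : ℝ) * P.Lam)) * PP P.be P.h (sh t y η) K z0 := h2
  have h4 := PP_chain P.be P.h η t K y z0
  refine le_trans ?_ h4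
  rw [mul_comm]
  refine mul_le_mul_of_nonneg_left ?_ (PP_nonneg _ _ _ _ _)
  have h5 := mul_le_mul_of_nonneg_left h3 (Real.exp_pos ((K : ℝ) * P.Lam)).le
  rw [← Real.exp_add, ← mul_assoc, ← Real.exp_add, add_neg_cancel, Real.exp_zero, one_mul] at h5
  exact h5

end Pool.Agent.W_7d29a1_P89
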