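import Pool.Agent.W_7d29a1_Q29.NTa66
import Pool.Agent.W_7d29a1_h46u.ConcV

/-!
# Orthogonality of the increments of the conditional means over windows of `K` rows
-/

set_option autoImplicit false

namespace Pool.Agent.W_7d29a1_P89

open MeasureTheory ProbabilityTheory Filter Topology Pool.Agent.W_MP_7d29a1_pr
  Pool.Agent.W_7d29a1_h46 Pool.Agent.W_7d29a1_h46u Pool.Agent.W_7d29a1_D2.B35
  Pool.Agent.W_7d29a1_Q29

namespace O79

variable {d : ℕ} {ρ : Measure ℝ} [IsProbabilityMeasure ρ]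

lemma int_cE' {F : Env d → ℝ} (hF : Integrable F (law d ρ)) (S : Set (ℕ × Site d)) :
    Integrable (cE ρ S F) (law d ρ) :=
  ((mp_spl (ρ := ρ) S).integrable_comp_of_integrable hF).integral_prod_left

lemma ae_int' {F : Env d → ℝ} (hF : Integrable F (law d ρ)) (S : Set (ℕ × Site d)) :
    ∀ᵐ η ∂(law d ρ), Integrable (fun ξ => F (spl S η ξ)) (law d ρ) :=
  ((mp_spl (ρ := ρ) S).integrable_comp_of_integrable hF).prod_right_ae

/-- Jensen's inequality for the square. -/
lemma sq_mean {g : Env d → ℝ} (hm : Measurable g) (h2 : Integrable (fun η => g η ^ 2) (law d ρ)) :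
    (∫ η, g η ∂(law d ρ)) ^ 2 ≤ ∫ η, g η ^ 2 ∂(law d ρ) := by
  have hg : MemLp g 2 (law d ρ) := (memLp_two_iff_integrable_sq hm.aestronglyMeasurable).2 h2
  have hi : Integrable g (law d ρ) := hg.integrable one_le_two
  set c : ℝ := ∫ η, g η ∂(law d ρ) with hc
  have h3 : 0 ≤ ∫ η, (g η - c) ^ 2 ∂(law d ρ) := integral_nonneg fun η => sq_nonneg _
  have h4 : ∀ η, (g η - c) ^ 2 = g η ^ 2 - (2 * c * g η - c ^ 2) := by intro η; ring
  simp only [h4] at h3
  have i1 : Integrable (fun η => 2 * c * g η) (law d ρ) := hi.const_mul _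
  have i2 : Integrable (fun η => 2 * c * g η - c ^ 2) (law d ρ) := i1.sub (integrable_const _)
  rw [integral_sub h2 i2, integral_sub i1 (integrable_const _), integral_const_mul, ← hc,
    integral_const] at h3
  simp only [probReal_univ, smul_eq_mul, one_mul] at h3
  nlinarith

lemma ae_sq {F : Env d → ℝ} (hm : Measurable F) (h2 : Integrable (fun η => F η ^ 2) (law d ρ))
    (S : Set (ℕ × Site d)) :
    ∀ᵐ η ∂(law d ρ), (cE ρ S F η) ^ 2 ≤ cE ρ S (fun η => F η ^ 2) η := by
  filter_upwards [ae_int' h2 S] with η hη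
  exact sq_mean (hm.comp (measurable_spl_right S η)) hη

lemma int_sq {F : Env d → ℝ} (hm : Measurable F) (h2 : Integrable (fun η => F η ^ 2) (law d ρ))
    (S : Set (ℕ × Site d)) : Integrable (fun η => (cE ρ S F η) ^ 2) (law d ρ) := by
  refine Integrable.mono' (int_cE' h2 S) ((measurable_cE hm S).pow_const 2).aestronglyMeasurable ?_
  filter_upwards [ae_sq hm h2 S] with η hη
  rw [Real.norm_eq_abs, abs_of_nonneg (sq_nonneg _)]
  exact hη

/-- The second moment of a conditional mean is at most the second moment. -/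
lemma sq_up {F : Env d → ℝ} (hm : Measurable F) (h2 : Integrable (fun η => F η ^ 2) (law d ρ))
    (S : Set (ℕ × Site d)) :
    ∫ η, (cE ρ S F η) ^ 2 ∂(law d ρ) ≤ ∫ η, F η ^ 2 ∂(law d ρ) := by
  rw [← int_cE S h2]
  exact integral_mono_ae (int_sq hm h2 S) (int_cE' h2 S) (ae_sq hm h2 S)

/-- The second moment of a conditional mean is at least the square of the mean. -/
lemma sq_lo {F : Env d → ℝ} (hm : Measurable F) (hi : Integrable F (law d ρ))
    (h2 : Integrable (fun η => F η ^ 2) (law d ρ)) (S : Set (ℕ × Site d)) :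
    (∫ η, F η ∂(law d ρ)) ^ 2 ≤ ∫ η, (cE ρ S F η) ^ 2 ∂(law d ρ) := by
  rw [← int_cE S hi]
  exact sq_mean (measurable_cE hm S) (int_sq hm h2 S)

lemma int_mul {f g : Env d → ℝ} (hf : Measurable f) (hg : Measurable g)
    (hf2 : Integrable (fun η => f η ^ 2) (law d ρ))
    (hg2 : Integrable (fun η => g η ^ 2) (law d ρ)) :
    Integrable (fun η => f η * g η) (law d ρ) := by
  refine Integrable.mono' (hf2.add hg2) (hf.mul hg).aestronglyMeasurable
    (Filter.Eventually.of_forall fun η => ?_)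
  rw [Real.norm_eq_abs, abs_mul]
  show |f η| * |g η| ≤ f η ^ 2 + g η ^ 2
  nlinarith [sq_nonneg (|f η| - |g η|), sq_abs (f η), sq_abs (g η), sq_nonneg (|f η|),
    sq_nonneg (|g η|)]

/-- Pythagoras. -/
lemma pyth {F : Env d → ℝ} (hm : Measurable F) (h2 : Integrable (fun η => F η ^ 2) (law d ρ))
    {S T : Set (ℕ × Site d)} (hST : S ⊆ T) :
    ∫ η, (cE ρ T F η - cE ρ S F η) ^ 2 ∂(law d ρ) =
      ∫ η, (cE ρ T F η) ^ 2 ∂(law d ρ) - ∫ η, (cE ρ S F η) ^ 2 ∂(law d ρ) := by
  have mS := measurable_cE (ρ := ρ) hm S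
  have mT := measurable_cE (ρ := ρ) hm T
  have iS := int_sq (ρ := ρ) hm h2 S
  have iT := int_sq (ρ := ρ) hm h2 T
  have hdep : DependsOn (cE ρ S F) T := fun η η' h => cE_dep S F fun p hp => h p (hST hp)
  have iFS : Integrable (fun η => F η * cE ρ S F η) (law d ρ) := int_mul hm mS h2 iS
  have iTS : Integrable (fun η => cE ρ T F η * cE ρ S F η) (law d ρ) := int_mul mT mS iT iS
  have h3 : ∫ η, cE ρ T F η * cE ρ S F η ∂(law d ρ) = ∫ η, (cE ρ S F η) ^ 2 ∂(law d ρ) := by
    rw [← int_mul_cE T iFS hdep, int_mul_cE S iFS (cE_dep S F)]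
    refine integral_congr_ae (Filter.Eventually.of_forall fun η => ?_)
    show cE ρ S F η * cE ρ S F η = cE ρ S F η ^ 2
    ring
  have h4 : ∀ η, (cE ρ T F η - cE ρ S F η) ^ 2 =
      (cE ρ T F η) ^ 2 + (cE ρ S F η) ^ 2 - 2 * (cE ρ T F η * cE ρ S F η) := by
    intro η
    ring
  simp only [h4]
  have i1 : Integrable (fun η => (cE ρ T F η) ^ 2 + (cE ρ S F η) ^ 2) (law d ρ) := iT.add iS
  rw [integral_sub i1 (iTS.const_mul 2), integral_add iT iS, integral_const_mul, h3]
  ring

/-- The sum of the increments over windows of length `K`. -/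
lemma tel {a : ℕ → ℝ} {u l : ℝ} (hu : ∀ i, a i ≤ u) (hl : ∀ i, l ≤ a i) (N K : ℕ) :
    ∑ t ∈ Finset.range N, (a (t + K) - a t) ≤ K * (u - l) := by
  have h1 : ∀ t, a (t + K) - a t = ∑ i ∈ Finset.range K, (a (t + (i + 1)) - a (t + i)) := by
    intro t
    have := Finset.sum_range_sub (fun i => a (t + i)) K
    simp only [add_zero] at this
    exact this.symm
  simp only [h1]
  rw [Finset.sum_comm]
  have h2 : ∀ i ∈ Finset.range K, ∑ t ∈ Finset.range N, (a (t + (i + 1)) - a (t + i)) ≤ u - l := by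
    intro i _
    have h3 := Finset.sum_range_sub (fun t => a (t + i)) N
    have h4 : ∑ t ∈ Finset.range N, (a (t + (i + 1)) - a (t + i)) =
        ∑ t ∈ Finset.range N, (a (t + 1 + i) - a (t + i)) := by
      refine Finset.sum_congr rfl fun t _ => ?_
      rw [show t + (i + 1) = t + 1 + i by ring]
    rw [h4, h3]
    have := hu (N + i)
    have := hl (0 + i)
    linarith
  refine (Finset.sum_le_sum h2).trans ?_
  rw [Finset.sum_const, Finset.card_range, nsmul_eq_mul]

end O79

open O79 in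
/-- **Multi-window orthogonality.** -/
theorem orth79 {d : ℕ} {ρ : Measure ℝ} [IsProbabilityMeasure ρ] (hd : 0 < d) (hρ : EM ρ) (β : ℝ)
    (h : Vec d) (n K : ℕ) :
    ∑ t ∈ Finset.range (n - K), ∫ η, (cE ρ (Pa d (t + K)) (fun η => X β h η n) η -
      cE ρ (Pa d t) (fun η => X β h η n) η) ^ 2 ∂(law d ρ) ≤ K * Va ρ β h n := by
  have hm : Measurable fun η : Env d => X β h η n := measurable_X β h n
  have hi : Integrable (fun η : Env d => X β h η n) (law d ρ) := (concU hd hρ β h n).1
  have hc2 : Integrable (fun η : Env d => (X β h η n - A ρ β h n) ^ 2) (law d ρ) := by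
    rcases Nat.eq_zero_or_pos n with h0 | h0
    · subst h0
      have h1 : DependsOn (fun η : Env d => X β h η 0) {p : ℕ × Site d | 1 ≤ p.1 ∧ p.1 ≤ 0} := by
        intro η η' hη
        have h2 : Z β h η 0 = Z β h η' 0 := dependsOn_Z β h 0 hη
        show X β h η 0 = X β h η' 0
        unfold X
        rw [h2]
      have h3 : ∀ η : Env d, X β h η 0 = X β h (fun _ => 0) 0 := fun η =>
        h1 fun p hp => absurd hp.2 (by have := hp.1; omega)
      simp only [h3]
      exact integrable_const _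
    · obtain ⟨C2, _, h2⟩ := momU (ρ := ρ) hd hρ β 2
      have := (h2 h n h0).1
      simpa only [sq_abs] using this
  have h2 : Integrable (fun η : Env d => X β h η n ^ 2) (law d ρ) := by
    have h3 : Integrable (fun η : Env d => (X β h η n - A ρ β h n) ^ 2 +
        (2 * A ρ β h n * X β h η n - A ρ β h n ^ 2)) (law d ρ) :=
      hc2.add ((hi.const_mul _).sub (integrable_const _))
    refine h3.congr (Filter.Eventually.of_forall fun η => ?_)
    show (X β h η n - A ρ β h n) ^ 2 + (2 * A ρ β h n * X β h η n - A ρ β h n ^ 2) = _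
    ring
  have hV : Va ρ β h n = ∫ η, X β h η n ^ 2 ∂(law d ρ) - A ρ β h n ^ 2 := by
    unfold Va
    have h4 : ∀ η : Env d, (X β h η n - A ρ β h n) ^ 2 =
        X β h η n ^ 2 - (2 * A ρ β h n * X β h η n - A ρ β h n ^ 2) := by intro η; ring
    simp only [h4]
    have i1 : Integrable (fun η : Env d => 2 * A ρ β h n * X β h η n) (law d ρ) := hi.const_mul _
    have i2 : Integrable (fun η : Env d => 2 * A ρ β h n * X β h η n - A ρ β h n ^ 2) (law d ρ) :=
      i1.sub (integrable_const _)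
    rw [integral_sub h2 i2, integral_sub i1 (integrable_const _), integral_const_mul,
      integral_const]
    simp only [probReal_univ, smul_eq_mul, one_mul]
    have h5 : ∫ η, X β h η n ∂(law d ρ) = A ρ β h n := rfl
    rw [h5]
    ring
  rw [hV]
  have h3 : ∀ t : ℕ, Pa d t ⊆ Pa d (t + K) := fun t p hp =>
    le_trans (show p.1 ≤ t from hp) (Nat.le_add_right t K)
  simp only [pyth (ρ := ρ) hm h2 (h3 _)]
  exact tel (a := fun t => ∫ η, (cE ρ (Pa d t) (fun η => X β h η n) η) ^ 2 ∂(law d ρ))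
    (fun t => sq_up hm h2 _) (fun t => sq_lo hm hi h2 _) (n - K) K

end Pool.Agent.W_7d29a1_P89
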