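import Pool.Agent.W_7d29a1_P89.SLDa66

/-!
Theorem (SL) with a positive density of lengths: the fraction does not depend on the exponent and
on the multiple of the logarithm.
-/

set_option autoImplicit false

namespace Pool.Agent.W_7d29a1_P89

open MeasureTheory ProbabilityTheory Filter Topology Pool.Agent.W_MP_7d29a1_pr
  Pool.Agent.W_7d29a1_h46 Pool.Agent.W_7d29a1_h46u Pool.Agent.W_7d29a1_D2.B35
  Pool.Agent.W_7d29a1_Q29

variable {d : ℕ} {ρ : Measure ℝ} [IsProbabilityMeasure ρ]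

open Classical in
/-- Theorem (SL) with a positive density, in the letters of `W_7d29a1_P89`. -/
theorem mainSLDP (hd : 0 < d) (hρ : EM ρ) (P : Prm d) (hL : P.Lam = lam ρ P.be P.h)
    (hvs : VSD ρ P.be P.h) : ∃ c : ℝ, 0 < c ∧ ∀ ε : ℝ, 0 < ε → ∀ M : ℝ,
    ∀ᶠ n : ℕ in atTop, (n : ℝ) ^ (1 - ε) ≤ Va ρ P.be P.h n ∨
      c * n ≤ (((Finset.range (n + 1)).filter fun m : ℕ =>
        M * Real.log n ≤ m * lam ρ P.be P.h - A ρ P.be P.h m).card : ℝ) := by
  obtain ⟨c0, hc, hloc⟩ := Csy42.loc42 (ρ := ρ) hd hρ P.be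
    (Real.log (Phi P.h) + Real.log (∫ t, Real.exp (P.be * t) ∂ρ) - lam ρ P.be P.h)
    (by have : lam ρ P.be P.h < Real.log (Phi P.h) + Real.log (∫ t, Real.exp (P.be * t) ∂ρ) := hvs
        linarith)
  have hcount := hloc P.h (by linarith)
  refine ⟨c0 / 12, by positivity, fun ε hε M => ?_⟩
  obtain ⟨b, hb⟩ : ∃ b : ℝ, b = max M 1 := ⟨_, rfl⟩
  have hb1 : 1 ≤ b := hb ▸ le_max_right _ _
  have hbM : M ≤ b := hb ▸ le_max_left _ _
  obtain ⟨C1, hC1⟩ : ∃ C1 : ℝ, C1 = 1 + 4 / c0 := ⟨_, rfl⟩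
  have hC1p : 1 ≤ C1 := by
    have : 0 < 4 / c0 := by positivity
    linarith
  obtain ⟨a, ha⟩ : ∃ a : ℝ, a = 4 * (C1 * b) := ⟨_, rfl⟩
  have hcb : 1 ≤ C1 * b := one_le_mul_of_one_le_of_one_le hC1p hb1
  have ha0 : 0 < a := by
    rw [ha]
    linarith
  obtain ⟨θ, hθ⟩ : ∃ θ : ℝ, θ = min 1 (ε / (2 * a)) := ⟨_, rfl⟩
  have hθ0 : 0 < θ := hθ ▸ lt_min one_pos (by positivity)
  have hθ1 : θ ≤ 1 := hθ ▸ min_le_left _ _
  have hθa : θ * a ≤ ε / 2 := by
    have h1 : θ ≤ ε / (2 * a) := hθ ▸ min_le_right _ _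
    have h2 := mul_le_mul_of_nonneg_right h1 ha0.le
    refine h2.trans (le_of_eq ?_)
    field_simp
  have hvs' : lam ρ P.be P.h < Real.log (∫ x, Real.exp (P.be * x) ∂ρ) +
      Real.log (∑ e : Step d, Real.exp (inner ℝ P.h (emb (vec e)))) := by
    have h1 : lam ρ P.be P.h < Real.log (Phi P.h) + Real.log (∫ t, Real.exp (P.be * t) ∂ρ) := hvs
    have h2 : Real.log (Phi P.h) =
      Real.log (∑ e : Step d, Real.exp (inner ℝ P.h (emb (vec e)))) := rfl
    linarith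
  obtain ⟨k, y, u, hk1, hu1, hp⟩ := Pool.Agent.W_7d29a1_P79.pair79 hd hρ P
    (fun t h0 h1 => mainP hd hρ P hL hvs' h0 h1) hθ0 hθ1
  have hk0 : (1 : ℝ) ≤ k := by exact_mod_cast hk1
  -- the eventual inequalities
  have hlog : Tendsto (fun n : ℕ => Real.log (n : ℝ)) atTop atTop :=
    Real.tendsto_log_atTop.comp tendsto_natCast_atTop_atTop
  have e1 : ∀ᶠ n : ℕ in atTop, max (1 - Real.log c0) (max u 1) ≤ Real.log n :=
    hlog.eventually_ge_atTop _
  have e2 : ∀ᶠ n : ℕ in atTop, a * k * Real.log n ≤ c0 / 2 * (n : ℝ) ^ (1 : ℝ) :=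
    log_le_pow_ev one_pos (by positivity)
  have e3 : ∀ᶠ n : ℕ in atTop, (a * k + 1) * Real.log n ≤ c0 ^ 2 / 8 * (n : ℝ) ^ (ε / 2) :=
    log_le_pow_ev (by positivity) (by positivity)
  filter_upwards [e1, e2, e3, eventually_ge_atTop 2] with n hn1 hn2 hn3 hn4
  have hn0 : (0 : ℝ) < n := by
    have : (2 : ℝ) ≤ n := by exact_mod_cast hn4
    linarith
  rw [Real.rpow_one] at hn2
  obtain ⟨l, hl⟩ : ∃ l : ℝ, l = Real.log n := ⟨_, rfl⟩
  rw [← hl] at hn1 hn2 hn3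
  have hl1 : 1 ≤ l := (le_max_right _ _).trans ((le_max_right _ _).trans hn1)
  have hlu : u ≤ l := (le_max_left _ _).trans ((le_max_right _ _).trans hn1)
  have hlc : 1 - Real.log c0 ≤ l := (le_max_left _ _).trans hn1
  by_contra hcon
  push Not at hcon
  obtain ⟨hVa, hDev⟩ := hcon
  -- the deviations are small
  obtain ⟨D, hD⟩ : ∃ D : ℝ, D = b * l := ⟨_, rfl⟩
  have hD0 : 0 < D := by
    rw [hD]
    positivity
  have hDm : (((Finset.range (n + 1)).filter fun m : ℕ =>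
      D < m * lam ρ P.be P.h - A ρ P.be P.h m).card : ℝ) ≤ c0 / 12 * n := by
    refine le_trans ?_ hDev.le
    have h1 : ((Finset.range (n + 1)).filter fun m : ℕ =>
        D < m * lam ρ P.be P.h - A ρ P.be P.h m).card ≤
        ((Finset.range (n + 1)).filter fun m : ℕ =>
        M * Real.log n ≤ m * lam ρ P.be P.h - A ρ P.be P.h m).card := by
      refine Finset.card_le_card fun m hm => ?_
      obtain ⟨h2, h3⟩ := Finset.mem_filter.1 hm
      refine Finset.mem_filter.2 ⟨h2, le_trans ?_ h3.le⟩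
      rw [hD, ← hl]
      exact mul_le_mul_of_nonneg_right hbM (by linarith)
    exact_mod_cast h1
  -- the number of lucky segments
  obtain ⟨r, hr⟩ : ∃ r : ℕ, r = ⌈2 * (C1 * b) * l / u⌉₊ := ⟨_, rfl⟩
  have hu0 : 0 < u := by linarith
  have hr1 : 2 * (C1 * b) * l ≤ r * u := by
    have h1 := Nat.le_ceil (2 * (C1 * b) * l / u)
    rwa [← hr, div_le_iff₀ hu0] at h1
  have hcbl : l ≤ C1 * b * l := le_mul_of_one_le_left (by linarith) hcb
  have hr2 : r * u ≤ a * l := by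
    have h1 := (Nat.ceil_lt_add_one (show (0 : ℝ) ≤ 2 * (C1 * b) * l / u by positivity)).le
    rw [← hr] at h1
    have h2 : (r : ℝ) * u ≤ (2 * (C1 * b) * l / u + 1) * u := mul_le_mul_of_nonneg_right h1 hu0.le
    have h3 : (2 * (C1 * b) * l / u + 1) * u = 2 * (C1 * b) * l + u := by field_simp
    rw [h3] at h2
    have h4 : l ≤ C1 * b * l := hcbl
    have h5 : a * l = 4 * (C1 * b * l) := by rw [ha]; ring
    rw [h5]
    linarith
  have hr0 : (0 : ℝ) ≤ r := Nat.cast_nonneg _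
  have hrK : ((r * k : ℕ) : ℝ) ≤ a * k * l := by
    push_cast
    have h1 : (r : ℝ) ≤ r * u := le_mul_of_one_le_right hr0 hu1
    have h2 : (r : ℝ) ≤ a * l := h1.trans hr2
    have h3 : (r : ℝ) * k ≤ a * l * k := mul_le_mul_of_nonneg_right h2 (by linarith)
    linarith
  -- the probability of the lucky segments
  have hprob : (n : ℝ) ^ (-(ε / 2)) ≤
      (law d ρ).real {η : Env d | Lk P (r * k) (r • y) ((r : ℝ) * u) η} := by
    refine le_trans ?_ (Pool.Agent.W_7d29a1_P78.concat78 P k y u r)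
    refine le_trans ?_ (pow_le_pow_left₀ (Real.exp_pos _).le hp r)
    rw [← Real.exp_nat_mul, Real.rpow_def_of_pos hn0, Real.exp_le_exp, ← hl]
    have h1 : θ * (r * u) ≤ θ * (a * l) := mul_le_mul_of_nonneg_left hr2 hθ0.le
    have h2 : θ * (a * l) ≤ ε / 2 * l := by
      rw [← mul_assoc]
      exact mul_le_mul_of_nonneg_right hθa (by linarith)
    have h3 : (r : ℝ) * -(θ * u) = -(θ * (r * u)) := by ring
    rw [h3]
    linarith
  have hall := all66 hd hρ P hL (n := n) (K := r * k) (by omega) (D := D) (U := r * u) (V := 1)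
    hc hD0 hDm zero_le_one (by
      have h1 : D + 4 * D / c0 = C1 * b * l := by
        rw [hC1, hD]
        field_simp
      linarith) (r • y) (hcount n)
  rw [one_pow, mul_one] at hall
  -- conclusion
  have h1 : c0 / 4 * n ≤ c0 * n - ((r * k : ℕ) : ℝ) - 3 * (c0 / 12 * n) := by linarith
  have h2 : (n : ℝ) ^ (-(ε / 2)) * (c0 / 2) ≤
      (law d ρ).real {η : Env d | Lk P (r * k) (r • y) ((r : ℝ) * u) η} * (c0 / 2) :=
    mul_le_mul_of_nonneg_right hprob (by positivity)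
  have hp0 : 0 < (n : ℝ) ^ (-(ε / 2)) := Real.rpow_pos_of_pos hn0 _
  have h3 : c0 / 4 * n * ((n : ℝ) ^ (-(ε / 2)) * (c0 / 2)) ≤
      ((r * k : ℕ) : ℝ) * Va ρ P.be P.h n :=
    (mul_le_mul h1 h2 (by positivity) (by
      have : 0 < c0 / 4 * n := by positivity
      linarith)).trans hall
  have h4 : ((r * k : ℕ) : ℝ) * Va ρ P.be P.h n ≤ a * k * l * (n : ℝ) ^ (1 - ε) :=
    mul_le_mul hrK hVa.le (integral_nonneg fun _ => sq_nonneg _) (by positivity)
  have h5 : (n : ℝ) * (n : ℝ) ^ (-(ε / 2)) = (n : ℝ) ^ (1 - ε) * (n : ℝ) ^ (ε / 2) := by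
    nth_rewrite 1 [← Real.rpow_one (n : ℝ)]
    rw [← Real.rpow_add hn0, ← Real.rpow_add hn0]
    congr 1
    ring
  have hq : 0 < (n : ℝ) ^ (1 - ε) := Real.rpow_pos_of_pos hn0 _
  have h6 : (n : ℝ) ^ (1 - ε) * (c0 ^ 2 / 8 * (n : ℝ) ^ (ε / 2)) ≤
      (n : ℝ) ^ (1 - ε) * (a * k * l) := by
    have e : c0 / 4 * n * ((n : ℝ) ^ (-(ε / 2)) * (c0 / 2)) =
        (n : ℝ) ^ (1 - ε) * (c0 ^ 2 / 8 * (n : ℝ) ^ (ε / 2)) := by
      have e' : c0 / 4 * n * ((n : ℝ) ^ (-(ε / 2)) * (c0 / 2)) =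
        c0 ^ 2 / 8 * ((n : ℝ) * (n : ℝ) ^ (-(ε / 2))) := by ring
      rw [e', h5]
      ring
    rw [← e]
    refine (h3.trans h4).trans (le_of_eq ?_)
    ring
  have h7 := le_of_mul_le_mul_left h6 hq
  linarith

open Classical in
/-- Theorem (SL) with a positive density: for every large `n` the variance is at least
`n ^ (1 - ε)` or at least `c n` of the lengths `m ≤ n` have `m lam - E log Z_m ≥ M log n`. -/
theorem mainSLD (hd : 0 < d) (hρ : EM ρ) (β : ℝ) (h : Vec d) (hvs : VSD ρ β h) :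
    ∃ c : ℝ, 0 < c ∧ ∀ ε : ℝ, 0 < ε → ∀ M : ℝ,
    ∀ᶠ n : ℕ in atTop, (n : ℝ) ^ (1 - ε) ≤ Va ρ β h n ∨
      c * n ≤ (((Finset.range (n + 1)).filter fun m : ℕ =>
        M * Real.log n ≤ m * lam ρ β h - A ρ β h m).card : ℝ) :=
  mainSLDP hd hρ ⟨lam ρ β h, β, h, 1⟩ rfl hvs

end Pool.Agent.W_7d29a1_P89
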