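import Pool.Agent.W_7d29a1_P89.SL

/-!
Theorem (SL) with a positive density of lengths.
-/

set_option autoImplicit false

namespace Pool.Agent.W_7d29a1_P89

open MeasureTheory ProbabilityTheory Filter Topology Pool.Agent.W_MP_7d29a1_pr
  Pool.Agent.W_7d29a1_h46 Pool.Agent.W_7d29a1_h46u Pool.Agent.W_7d29a1_D2.B35
  Pool.Agent.W_7d29a1_Q29 Pool.Agent.W_7d29a1_Q29.NT66

variable {d : ℕ} {ρ : Measure ℝ} [IsProbabilityMeasure ρ]

/-- One window. -/
theorem one66 (hd : 0 < d) (hρ : EM ρ) (P : Prm d) (hL : P.Lam = lam ρ P.be P.h) {n t K : ℕ}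
    (hn : 1 ≤ n) (ht : t + K ≤ n) {c0 D U V : ℝ} (hc : 0 < c0) (hD0 : 0 < D)
    (hD1 : (t : ℝ) * lam ρ P.be P.h - A ρ P.be P.h t ≤ D)
    (hD2 : ((n - t : ℕ) : ℝ) * lam ρ P.be P.h - A ρ P.be P.h (n - t) ≤ D)
    (hD3 : ((n - (t + K) : ℕ) : ℝ) * lam ρ P.be P.h - A ρ P.be P.h (n - (t + K)) ≤ D)
    (hV : 0 ≤ V)
    (hUV : V ≤ Real.log c0 + U - D - 4 * D / c0) (z0 : Site d)
    (hloc : c0 ≤ (law d ρ).real {η | ∃ y ∈ boxF d t, c0 * Z P.be P.h η t ≤ PP P.be P.h η t y}) :
    (law d ρ).real {η | Lk P K z0 U η} * (c0 / 2) * V ^ 2 ≤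
      ∫ η, (cE ρ (Pa d (t + K)) (fun η => X P.be P.h η n) η -
        cE ρ (Pa d t) (fun η => X P.be P.h η n) η) ^ 2 ∂(law d ρ) := by
  have htn : t ≤ n := by omega
  set g : Env d → ℝ := cE ρ (Pa d t) (Us ρ P.be P.h n t) with hg
  set s : ℝ := 4 * D / c0 with hs
  have hs0 : 0 < s := by positivity
  have hgm : Measurable g := measurable_cE (measurable_Us P.be P.h n t) (Pa d t)
  have hgi : Integrable g (law d ρ) := (int_abs_cE (integrable_Us hd hρ P.be P.h n t) (Pa d t)).1
  have hg0 : 0 ≤ᵐ[law d ρ] g := Us_nonneg89 hd hρ P.be P.h htn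
  -- the mean of the gain
  have hgE : ∫ η, g η ∂(law d ρ) ≤ 2 * D := by
    have e1 : ∫ η, g η ∂(law d ρ) = ∫ η, Us ρ P.be P.h n t η ∂(law d ρ) :=
      int_cE (Pa d t) (integrable_Us hd hρ P.be P.h n t)
    have hi1 : Integrable (fun η : Env d => X P.be P.h η n) (law d ρ) :=
      (concU hd hρ P.be P.h n).1
    have hi2 : Integrable (fun η : Env d => X P.be P.h η t) (law d ρ) :=
      (concU hd hρ P.be P.h t).1
    have hi3 : Integrable (fun η : Env d => X P.be P.h η n - X P.be P.h η t) (law d ρ) :=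
      hi1.sub hi2
    have e2 : ∫ η, Us ρ P.be P.h n t η ∂(law d ρ) =
        A ρ P.be P.h n - A ρ P.be P.h t - A ρ P.be P.h (n - t) := by
      unfold Us
      rw [integral_sub hi3 (integrable_const _), integral_sub hi1 hi2, integral_const]
      simp [A]
    have h1 := hD1
    have h2 := hD2
    have h3 := A_le_lam hd hρ P.be P.h n
    have h4 : ((n - t : ℕ) : ℝ) = n - t := by rw [Nat.cast_sub htn]
    rw [h4] at h2
    rw [e1, e2]
    nlinarith
  set G : Set (Env d) := {η | g η ≤ s} with hG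
  have hGm : MeasurableSet G := measurableSet_le hgm measurable_const
  have hGd : DependsOn (fun η : Env d => η ∈ G) (Pa d t) := by
    intro η η' hη
    have e : g η = g η' := cE_dep (Pa d t) (Us ρ P.be P.h n t) hη
    show (g η ≤ s) = (g η' ≤ s)
    rw [e]
  have hMk : s * (law d ρ).real {η | s ≤ g η} ≤ ∫ η, g η ∂(law d ρ) :=
    mul_meas_ge_le_integral_of_nonneg hg0 hgi s
  have hbad : (law d ρ).real {η | s ≤ g η} ≤ c0 / 2 := by
    have h1 : s * (law d ρ).real {η | s ≤ g η} ≤ 2 * D := hMk.trans hgE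
    have h2 : s * (c0 / 2) = 2 * D := by
      rw [hs]
      field_simp
      ring
    rw [← h2] at h1
    exact le_of_mul_le_mul_left h1 hs0
  have hgood : c0 / 2 ≤ (law d ρ).real {η | (∃ y ∈ boxF d t,
      c0 * Z P.be P.h η t ≤ PP P.be P.h η t y) ∧ η ∈ G} := by
    have h1 : {η : Env d | ∃ y ∈ boxF d t, c0 * Z P.be P.h η t ≤ PP P.be P.h η t y} ⊆
        {η | (∃ y ∈ boxF d t, c0 * Z P.be P.h η t ≤ PP P.be P.h η t y) ∧ η ∈ G} ∪
          {η | s ≤ g η} := by
      intro η hη
      rcases le_total (g η) s with h | h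
      · exact Or.inl ⟨hη, h⟩
      · exact Or.inr h
    have h2 := (measureReal_mono (μ := law d ρ) h1).trans (measureReal_union_le _ _)
    linarith
  have hluc := luc78 (ρ := ρ) P c0 t K z0 U hGm hGd
  -- Markov for the square
  set F : Env d → ℝ := fun η => cE ρ (Pa d (t + K)) (fun η => X P.be P.h η n) η -
    cE ρ (Pa d t) (fun η => X P.be P.h η n) η with hF
  have hX2 := S98.X_sq_int (ρ := ρ) hd hρ P.be P.h hn
  have hXi : Integrable (fun η : Env d => X P.be P.h η n) (law d ρ) :=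
    (concU hd hρ P.be P.h n).1
  have hXm : Measurable fun η : Env d => X P.be P.h η n := measurable_X P.be P.h n
  have hF2 : Integrable (fun η => F η ^ 2) (law d ρ) := by
    have i1 := (cE_L2 (ρ := ρ) (Pa d (t + K)) hXm hXi hX2).1
    have i2 := (cE_L2 (ρ := ρ) (Pa d t) hXm hXi hX2).1
    have i3 := int_mul_sq (measurable_cE (ρ := ρ) hXm (Pa d (t + K)))
      (measurable_cE (ρ := ρ) hXm (Pa d t)) i1 i2
    have i4 := (i1.sub (i3.const_mul 2)).add i2
    refine i4.congr (Eventually.of_forall fun η => ?_)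
    simp only [hF, Pi.add_apply, Pi.sub_apply]
    ring
  have hMk2 : V ^ 2 * (law d ρ).real {η | V ^ 2 ≤ F η ^ 2} ≤ ∫ η, F η ^ 2 ∂(law d ρ) :=
    mul_meas_ge_le_integral_of_nonneg (Eventually.of_forall fun η => sq_nonneg (F η)) hF2 (V ^ 2)
  have hsub : {η : Env d | (∃ y ∈ boxF d t, c0 * Z P.be P.h η t ≤ PP P.be P.h η t y ∧
      Real.exp (K * P.Lam + U) * PP P.be P.h η t y ≤ PP P.be P.h η (t + K) (y + z0)) ∧ η ∈ G}
      ≤ᵐ[law d ρ] ({η | V ^ 2 ≤ F η ^ 2} : Set (Env d)) := by
    filter_upwards [gain89 hd hρ P.be P.h ht (L := P.Lam) (U := U) (s := s) hc z0] with η h1 h2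
    have h3 := h1 h2.1 h2.2
    have h4 := hD3
    have h5 := A_le_lam hd hρ P.be P.h (n - t)
    have h6 : ((n - (t + K) : ℕ) : ℝ) = n - (t + K) := by rw [Nat.cast_sub ht]; push_cast; ring
    have h7 : ((n - t : ℕ) : ℝ) = n - t := by rw [Nat.cast_sub htn]
    rw [h6] at h4
    rw [h7] at h5
    have h8 : V ≤ F η := by
      rw [hL] at h3
      simp only [hF]
      nlinarith
    exact pow_le_pow_left₀ hV h8 2
  have h9 : (law d ρ).real {η : Env d | (∃ y ∈ boxF d t, c0 * Z P.be P.h η t ≤ PP P.be P.h η t y ∧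
      Real.exp (K * P.Lam + U) * PP P.be P.h η t y ≤ PP P.be P.h η (t + K) (y + z0)) ∧ η ∈ G} ≤
      (law d ρ).real {η | V ^ 2 ≤ F η ^ 2} :=
    ENNReal.toReal_mono (measure_ne_top _ _) (measure_mono_ae hsub)
  have h10 : (law d ρ).real {η | Lk P K z0 U η} * (c0 / 2) ≤
      (law d ρ).real {η | V ^ 2 ≤ F η ^ 2} :=
    ((mul_le_mul_of_nonneg_left hgood measureReal_nonneg).trans hluc).trans h9
  calc (law d ρ).real {η | Lk P K z0 U η} * (c0 / 2) * V ^ 2
      ≤ (law d ρ).real {η | V ^ 2 ≤ F η ^ 2} * V ^ 2 :=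
        mul_le_mul_of_nonneg_right h10 (sq_nonneg V)
    _ = V ^ 2 * (law d ρ).real {η | V ^ 2 ≤ F η ^ 2} := mul_comm _ _
    _ ≤ _ := hMk2

open Classical in
/-- All the windows, few bad lengths. -/
theorem all66 (hd : 0 < d) (hρ : EM ρ) (P : Prm d) (hL : P.Lam = lam ρ P.be P.h) {n K : ℕ}
    (hn : 1 ≤ n) {c0 D U V b : ℝ} (hc : 0 < c0) (hD0 : 0 < D)
    (hbad : (((Finset.range (n + 1)).filter fun m : ℕ =>
      D < m * lam ρ P.be P.h - A ρ P.be P.h m).card : ℝ) ≤ b) (hV : 0 ≤ V)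
    (hUV : V ≤ Real.log c0 + U - D - 4 * D / c0) (z0 : Site d)
    (hcount : c0 * n ≤ (((Finset.range n).filter fun t =>
      c0 ≤ (law d ρ).real {η | ∃ y ∈ boxF d t,
        c0 * Z P.be P.h η t ≤ PP P.be P.h η t y}).card : ℝ)) :
    (c0 * n - K - 3 * b) * ((law d ρ).real {η | Lk P K z0 U η} * (c0 / 2) * V ^ 2) ≤
      K * Va ρ P.be P.h n := by
  set q : ℝ := (law d ρ).real {η | Lk P K z0 U η} * (c0 / 2) * V ^ 2 with hq
  have hq0 : 0 ≤ q := by
    have := measureReal_nonneg (μ := law d ρ) (s := {η | Lk P K z0 U η})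
    positivity
  have hX2 := S98.X_sq_int (ρ := ρ) hd hρ P.be P.h hn
  have ho := orth89 hd hρ P.be P.h hX2 K (n + 1 - K)
  refine le_trans ?_ ho
  set S : Finset ℕ := (Finset.range n).filter fun t =>
      c0 ≤ (law d ρ).real {η | ∃ y ∈ boxF d t, c0 * Z P.be P.h η t ≤ PP P.be P.h η t y} with hS
  set B : Finset ℕ := (Finset.range (n + 1)).filter fun m : ℕ =>
      D < m * lam ρ P.be P.h - A ρ P.be P.h m with hB
  set B2 : Finset ℕ := (Finset.range n).filter fun t => n - t ∈ B with hB2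
  set B3 : Finset ℕ := (Finset.range (n + 1 - K)).filter fun t => n - (t + K) ∈ B with hB3
  set T : Finset ℕ := S.filter fun t => t < n + 1 - K ∧ t ∉ B ∧ n - t ∉ B ∧ n - (t + K) ∉ B
    with hT
  have hb2 : B2.card ≤ B.card := by
    refine Finset.card_le_card_of_injOn (fun t => n - t) (fun t ht => (Finset.mem_filter.1 ht).2) ?_
    intro t ht s hs hts
    have h1 := Finset.mem_range.1 (Finset.mem_filter.1 ht).1
    have h2 := Finset.mem_range.1 (Finset.mem_filter.1 hs).1
    simp only at hts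
    omega
  have hb3 : B3.card ≤ B.card := by
    refine Finset.card_le_card_of_injOn (fun t => n - (t + K))
      (fun t ht => (Finset.mem_filter.1 ht).2) ?_
    intro t ht s hs hts
    have h1 := Finset.mem_range.1 (Finset.mem_filter.1 ht).1
    have h2 := Finset.mem_range.1 (Finset.mem_filter.1 hs).1
    simp only at hts
    omega
  have hTcard : (c0 * n - K - 3 * b : ℝ) ≤ T.card := by
    have h1 : S.card ≤ T.card + K + (B.card + B.card + B.card) := by
      have h2 : S ⊆ T ∪ Finset.Ico (n + 1 - K) n ∪ (B ∪ B2 ∪ B3) := by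
        intro t ht
        have htn := Finset.mem_range.1 (Finset.mem_filter.1 ht).1
        by_cases h : t < n + 1 - K
        · by_cases h1 : t ∈ B
          · exact Finset.mem_union_right _ (Finset.mem_union_left _ (Finset.mem_union_left _ h1))
          · by_cases h2 : n - t ∈ B
            · exact Finset.mem_union_right _ (Finset.mem_union_left _ (Finset.mem_union_right _
                (Finset.mem_filter.2 ⟨Finset.mem_range.2 htn, h2⟩)))
            · by_cases h3 : n - (t + K) ∈ B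
              · exact Finset.mem_union_right _ (Finset.mem_union_right _
                  (Finset.mem_filter.2 ⟨Finset.mem_range.2 h, h3⟩))
              · exact Finset.mem_union_left _ (Finset.mem_union_left _
                  (Finset.mem_filter.2 ⟨ht, h, h1, h2, h3⟩))
        · exact Finset.mem_union_left _ (Finset.mem_union_right _
            (Finset.mem_Ico.2 ⟨by omega, htn⟩))
      have h3 := (Finset.card_le_card h2).trans (Finset.card_union_le _ _)
      have h4 := Finset.card_union_le T (Finset.Ico (n + 1 - K) n)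
      have h5 := Finset.card_union_le (B ∪ B2) B3
      have h6 := Finset.card_union_le B B2
      rw [Nat.card_Ico] at h4
      omega
    have h4 : (S.card : ℝ) ≤ T.card + K + (B.card + B.card + B.card) := by exact_mod_cast h1
    linarith
  calc (c0 * n - K - 3 * b) * q ≤ T.card * q := mul_le_mul_of_nonneg_right hTcard hq0
    _ = ∑ _t ∈ T, q := by rw [Finset.sum_const, nsmul_eq_mul]
    _ ≤ ∑ t ∈ T, ∫ η, (cE ρ (Pa d (t + K)) (fun η => X P.be P.h η n) η -
        cE ρ (Pa d t) (fun η => X P.be P.h η n) η) ^ 2 ∂(law d ρ) := by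
        refine Finset.sum_le_sum fun t ht => ?_
        obtain ⟨h1, h2, h3, h4, h5⟩ := Finset.mem_filter.1 ht
        obtain ⟨h6, h7⟩ := Finset.mem_filter.1 h1
        have h8 := Finset.mem_range.1 h6
        have key : ∀ m : ℕ, m ≤ n → m ∉ B → (m : ℝ) * lam ρ P.be P.h - A ρ P.be P.h m ≤ D := by
          intro m hm hmB
          by_contra hcon
          exact hmB (Finset.mem_filter.2 ⟨Finset.mem_range.2 (by omega), not_le.1 hcon⟩)
        exact one66 hd hρ P hL hn (by omega) hc hD0 (key t h8.le h3)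
          (key (n - t) (Nat.sub_le _ _) h4) (key (n - (t + K)) (Nat.sub_le _ _) h5) hV hUV z0 h7
    _ ≤ _ := by
        refine Finset.sum_le_sum_of_subset_of_nonneg ?_ fun t _ _ =>
          integral_nonneg fun _ => sq_nonneg _
        intro t ht
        exact Finset.mem_range.2 (Finset.mem_filter.1 ht).2.1

end Pool.Agent.W_7d29a1_P89
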