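import Pool.Agent.W_7d29a1_Q29.NTa66

/-!
Windows of rows: the squares of the increments of the conditional means.
-/

set_option autoImplicit false

namespace Pool.Agent.W_7d29a1_P89

open MeasureTheory ProbabilityTheory Filter Topology Pool.Agent.W_MP_7d29a1_pr
  Pool.Agent.W_7d29a1_h46 Pool.Agent.W_7d29a1_h46u Pool.Agent.W_7d29a1_D2.B35
  Pool.Agent.W_7d29a1_Q29 Pool.Agent.W_7d29a1_Q29.NT66

variable {d : ℕ} {ρ : Measure ℝ} [IsProbabilityMeasure ρ]

/-- The square around a constant. -/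
lemma sq_around {E : Type*} [MeasurableSpace E] {ν : Measure E} [IsProbabilityMeasure ν]
    {F : E → ℝ} (hi : Integrable F ν) (hi2 : Integrable (fun η => F η ^ 2) ν) (c : ℝ) :
    ∫ η, (F η - c) ^ 2 ∂ν = ∫ η, F η ^ 2 ∂ν - 2 * c * ∫ η, F η ∂ν + c ^ 2 := by
  have e1 : ∀ η, (F η - c) ^ 2 = (F η ^ 2 - 2 * c * F η) + c ^ 2 := fun η => by ring
  simp only [e1]
  have h1 : Integrable (fun η => F η ^ 2 - 2 * c * F η) ν := hi2.sub (hi.const_mul (2 * c))
  have h2 : ∫ η, (F η ^ 2 - 2 * c * F η) ∂ν = ∫ η, F η ^ 2 ∂ν - 2 * c * ∫ η, F η ∂ν := by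
    rw [integral_sub hi2 (hi.const_mul (2 * c)), integral_const_mul]
  rw [integral_add h1 (integrable_const _), h2]
  simp

/-- The square of the conditional mean. -/
lemma cE_sq_ae (S : Set (ℕ × Site d)) {F : Env d → ℝ} (hi : Integrable F (law d ρ))
    (hi2 : Integrable (fun η => F η ^ 2) (law d ρ)) :
    ∀ᵐ η ∂(law d ρ), (cE ρ S F η) ^ 2 ≤ cE ρ S (fun η => F η ^ 2) η := by
  filter_upwards [ae_int hi S, ae_int hi2 S] with η h1 h2
  unfold cE
  set m : ℝ := ∫ ξ, F (spl S η ξ) ∂(law d ρ) with hm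
  have h3 : 0 ≤ ∫ ξ, (F (spl S η ξ) - m) ^ 2 ∂(law d ρ) := integral_nonneg fun _ => sq_nonneg _
  have h4 := sq_around h1 h2 m
  rw [← hm] at h4
  nlinarith

lemma cE_L2 (S : Set (ℕ × Site d)) {F : Env d → ℝ} (hm : Measurable F)
    (hi : Integrable F (law d ρ)) (hi2 : Integrable (fun η => F η ^ 2) (law d ρ)) :
    Integrable (fun η => (cE ρ S F η) ^ 2) (law d ρ) ∧
      ∫ η, (cE ρ S F η) ^ 2 ∂(law d ρ) ≤ ∫ η, F η ^ 2 ∂(law d ρ) := by
  have h1 := int_abs_cE (ρ := ρ) hi2 S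
  have h2 := cE_sq_ae S hi hi2
  have h3 : Integrable (fun η => (cE ρ S F η) ^ 2) (law d ρ) := by
    refine Integrable.mono' h1.1 ((measurable_cE hm S).pow_const 2).aestronglyMeasurable ?_
    filter_upwards [h2] with η h
    rw [Real.norm_eq_abs, abs_of_nonneg (sq_nonneg _)]
    exact h
  refine ⟨h3, ?_⟩
  rw [← int_cE (ρ := ρ) S hi2]
  exact integral_mono_ae h3 h1.1 h2

omit [IsProbabilityMeasure ρ] in
/-- Products of square integrable functions. -/
lemma int_mul_sq {F G : Env d → ℝ} (hF : Measurable F) (hG : Measurable G)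
    (hF2 : Integrable (fun η => F η ^ 2) (law d ρ)) (hG2 : Integrable (fun η => G η ^ 2) (law d ρ)) :
    Integrable (fun η => F η * G η) (law d ρ) := by
  refine Integrable.mono' (hF2.add hG2) (hF.mul hG).aestronglyMeasurable
    (Eventually.of_forall fun η => ?_)
  rw [Real.norm_eq_abs, abs_le]
  simp only [Pi.add_apply]
  constructor <;> nlinarith [sq_nonneg (F η + G η), sq_nonneg (F η - G η), sq_nonneg (F η),
    sq_nonneg (G η)]

/-- The increment of the conditional means. -/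
lemma incr_sq {S T : Set (ℕ × Site d)} (hST : S ⊆ T) {F : Env d → ℝ} (hm : Measurable F)
    (hi : Integrable F (law d ρ)) (hi2 : Integrable (fun η => F η ^ 2) (law d ρ)) :
    ∫ η, (cE ρ T F η - cE ρ S F η) ^ 2 ∂(law d ρ) =
      ∫ η, (cE ρ T F η) ^ 2 ∂(law d ρ) - ∫ η, (cE ρ S F η) ^ 2 ∂(law d ρ) := by
  have hT := (cE_L2 T hm hi hi2).1
  have hS := (cE_L2 S hm hi hi2).1
  have hTS := int_mul_sq (measurable_cE (ρ := ρ) hm T) (measurable_cE (ρ := ρ) hm S) hT hS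
  have hFS := int_mul_sq hm (measurable_cE (ρ := ρ) hm S) hi2 hS
  have e1 : ∫ η, F η * cE ρ S F η ∂(law d ρ) = ∫ η, cE ρ T F η * cE ρ S F η ∂(law d ρ) :=
    int_mul_cE T hFS ((cE_dep S F).mono hST)
  have e2 : ∫ η, F η * cE ρ S F η ∂(law d ρ) = ∫ η, cE ρ S F η * cE ρ S F η ∂(law d ρ) :=
    int_mul_cE S hFS (cE_dep S F)
  have e3 : ∀ η, (cE ρ T F η - cE ρ S F η) ^ 2 =
      ((cE ρ T F η) ^ 2 - 2 * (cE ρ T F η * cE ρ S F η)) + (cE ρ S F η) ^ 2 := fun η => by ring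
  have e4 : ∀ η, cE ρ S F η * cE ρ S F η = (cE ρ S F η) ^ 2 := fun η => by ring
  have h1 : Integrable (fun η => (cE ρ T F η) ^ 2 - 2 * (cE ρ T F η * cE ρ S F η)) (law d ρ) :=
    hT.sub (hTS.const_mul 2)
  have h2 : ∫ η, ((cE ρ T F η) ^ 2 - 2 * (cE ρ T F η * cE ρ S F η)) ∂(law d ρ) =
      ∫ η, (cE ρ T F η) ^ 2 ∂(law d ρ) - 2 * ∫ η, cE ρ T F η * cE ρ S F η ∂(law d ρ) := by
    rw [integral_sub hT (hTS.const_mul 2), integral_const_mul]
  simp only [e3]
  rw [integral_add h1 hS, h2, ← e1, e2]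
  simp only [e4]
  ring

lemma mean_sq_le (S : Set (ℕ × Site d)) {F : Env d → ℝ} (hm : Measurable F)
    (hi : Integrable F (law d ρ)) (hi2 : Integrable (fun η => F η ^ 2) (law d ρ)) :
    (∫ η, F η ∂(law d ρ)) ^ 2 ≤ ∫ η, (cE ρ S F η) ^ 2 ∂(law d ρ) := by
  have h1 := (cE_L2 S hm hi hi2).1
  have h2 := (int_abs_cE (ρ := ρ) hi S).1
  have h3 := int_cE (ρ := ρ) S hi
  set m : ℝ := ∫ η, F η ∂(law d ρ) with hm'
  have h4 : 0 ≤ ∫ η, (cE ρ S F η - m) ^ 2 ∂(law d ρ) := integral_nonneg fun _ => sq_nonneg _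
  have h5 := sq_around h2 h1 m
  rw [h3] at h5
  nlinarith

/-- A telescope with windows. -/
lemma tele_win (m : ℕ → ℝ) {a b : ℝ} (ha : ∀ t, a ≤ m t) (hb : ∀ t, m t ≤ b) (K : ℕ) :
    ∀ N : ℕ, ∑ t ∈ Finset.range N, (m (t + K) - m t) ≤ K * (b - a) := by
  intro N
  have h1 : ∑ t ∈ Finset.range N, (m (t + K) - m t) =
      ∑ k ∈ Finset.range K, (m (N + k) - m k) := by
    induction K with
    | zero => simp
    | succ K ih =>
      have e1 : ∑ t ∈ Finset.range N, (m (t + (K + 1)) - m t) =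
          ∑ t ∈ Finset.range N, (m (t + K) - m t) +
            ∑ t ∈ Finset.range N, (m (t + 1 + K) - m (t + K)) := by
        rw [← Finset.sum_add_distrib]
        refine Finset.sum_congr rfl fun t _ => ?_
        have : t + (K + 1) = t + 1 + K := by ring
        rw [this]
        ring
      rw [e1, ih, Finset.sum_range_succ,
        Finset.sum_range_sub (fun t => m (t + K)) N, zero_add]
  rw [h1]
  calc ∑ k ∈ Finset.range K, (m (N + k) - m k) ≤ ∑ _k ∈ Finset.range K, (b - a) :=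
        Finset.sum_le_sum fun k _ => by linarith [hb (N + k), ha k]
    _ = K * (b - a) := by
        rw [Finset.sum_const, Finset.card_range, nsmul_eq_mul]

/-- The increments of the conditional means of the free energy over the windows of `K` rows. -/
theorem orth89 (hd : 0 < d) (hρ : EM ρ) (β : ℝ) (h : Vec d) {n : ℕ}
    (hX2 : Integrable (fun η => X β h η n ^ 2) (law d ρ)) (K N : ℕ) :
    ∑ t ∈ Finset.range N, ∫ η, (cE ρ (Pa d (t + K)) (fun η => X β h η n) η -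
      cE ρ (Pa d t) (fun η => X β h η n) η) ^ 2 ∂(law d ρ) ≤ K * Va ρ β h n := by
  have hm : Measurable fun η : Env d => X β h η n := measurable_X β h n
  have hi : Integrable (fun η : Env d => X β h η n) (law d ρ) := (concU hd hρ β h n).1
  have hPa : ∀ t, Pa d t ⊆ Pa d (t + K) := fun t p hp => le_trans (show p.1 ≤ t from hp) (by omega)
  have h1 : ∀ t, ∫ η, (cE ρ (Pa d (t + K)) (fun η => X β h η n) η -
      cE ρ (Pa d t) (fun η => X β h η n) η) ^ 2 ∂(law d ρ) =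
      ∫ η, (cE ρ (Pa d (t + K)) (fun η => X β h η n) η) ^ 2 ∂(law d ρ) -
        ∫ η, (cE ρ (Pa d t) (fun η => X β h η n) η) ^ 2 ∂(law d ρ) := fun t =>
    incr_sq (hPa t) hm hi hX2
  simp only [h1]
  have h2 := tele_win (fun t => ∫ η, (cE ρ (Pa d t) (fun η => X β h η n) η) ^ 2 ∂(law d ρ))
    (a := (A ρ β h n) ^ 2) (b := ∫ η, X β h η n ^ 2 ∂(law d ρ))
    (fun t => mean_sq_le (Pa d t) hm hi hX2) (fun t => (cE_L2 (Pa d t) hm hi hX2).2) K N
  refine h2.trans (le_of_eq ?_)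
  congr 1
  unfold Va
  rw [sq_around hi hX2 (A ρ β h n)]
  have e2 : ∫ η, X β h η n ∂(law d ρ) = A ρ β h n := rfl
  rw [e2]
  ring

end Pool.Agent.W_7d29a1_P89
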