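import Pool.Agent.W_7d29a1_P89.SLa
import Pool.Agent.W_7d29a1_Q29.SumA98

/-!
The conditional mean of the free energy given the rows `≤ t`: lower bounds.
-/

set_option autoImplicit false

namespace Pool.Agent.W_7d29a1_P89

open MeasureTheory ProbabilityTheory Filter Topology Pool.Agent.W_MP_7d29a1_pr
  Pool.Agent.W_7d29a1_h46 Pool.Agent.W_7d29a1_h46u Pool.Agent.W_7d29a1_D2.B35
  Pool.Agent.W_7d29a1_Q29 Pool.Agent.W_7d29a1_Q29.NT66

variable {d : ℕ} {ρ : Measure ℝ} [IsProbabilityMeasure ρ]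

/-- The future after a point of the row `T`. -/
lemma fut89 (hd : 0 < d) (hρ : EM ρ) (β : ℝ) (h : Vec d) {n T : ℕ} (hT : T ≤ n) :
    ∀ᵐ η ∂(law d ρ), ∀ w : Site d, 0 < PP β h η T w →
      Real.log (PP β h η T w) + A ρ β h (n - T) ≤ cE ρ (Pa d T) (fun η => X β h η n) η := by
  filter_upwards [ae_int (concU (ρ := ρ) hd hρ β h n).1 (Pa d T)] with η hη w hw
  have hXi : Integrable (fun ξ : Env d => X β h (sh T w ξ) (n - T)) (law d ρ) :=
    (mp_sh T w).integrable_comp_of_integrable (concU hd hρ β h (n - T)).1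
  have key : ∀ ξ, Real.log (PP β h η T w) + X β h (sh T w ξ) (n - T) ≤
      X β h (spl (Pa d T) η ξ) n := by
    intro ξ
    have h1 := PP_chainZ β h (spl (Pa d T) η ξ) T (n - T) w
    rw [Nat.add_sub_cancel' hT, PP_past] at h1
    have h2 : 0 < Z β h (sh T w (spl (Pa d T) η ξ)) (n - T) := Z_pos hd _ _ _ _
    have h3 := Real.log_le_log (mul_pos hw h2) h1
    rw [Real.log_mul hw.ne' h2.ne'] at h3
    have h4 : Real.log (Z β h (sh T w (spl (Pa d T) η ξ)) (n - T)) = X β h (sh T w ξ) (n - T) :=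
      X_future β h T (n - T) w η ξ
    rw [h4] at h3
    exact h3
  have h5 : Integrable (fun ξ : Env d => Real.log (PP β h η T w) + X β h (sh T w ξ) (n - T))
      (law d ρ) := (integrable_const _).add hXi
  have h6 := integral_mono h5 hη key
  rw [integral_add (integrable_const _) hXi, integral_sh T w (measurable_X β h (n - T)),
    integral_const] at h6
  simpa [cE, A] using h6

/-- The conditional mean in terms of `Us`. -/
lemma cE_Us (hd : 0 < d) (hρ : EM ρ) (β : ℝ) (h : Vec d) (n t : ℕ) :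
    ∀ᵐ η ∂(law d ρ), cE ρ (Pa d t) (Us ρ β h n t) η =
      cE ρ (Pa d t) (fun η => X β h η n) η - X β h η t - A ρ β h (n - t) := by
  filter_upwards [ae_int (concU (ρ := ρ) hd hρ β h n).1 (Pa d t)] with η hη
  unfold cE Us
  simp only [X_past]
  have h1 : ∀ ξ, X β h (spl (Pa d t) η ξ) n - X β h η t - A ρ β h (n - t) =
      X β h (spl (Pa d t) η ξ) n - (X β h η t + A ρ β h (n - t)) := fun ξ => by ring
  simp only [h1]
  rw [integral_sub hη (integrable_const _), integral_const]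
  simp
  ring

/-- The conditional mean gain is nonnegative. -/
lemma Us_nonneg89 (hd : 0 < d) (hρ : EM ρ) (β : ℝ) (h : Vec d) {n t : ℕ} (ht : t ≤ n) :
    ∀ᵐ η ∂(law d ρ), 0 ≤ cE ρ (Pa d t) (Us ρ β h n t) η := by
  filter_upwards [p_ge hd hρ β h ht] with η hη
  have h1 := Finset.sum_le_sum (s := boxF d t) fun y (_ : y ∈ boxF d t) => hη y
  rw [← Finset.sum_mul, ← Finset.sum_div] at h1
  have h2 : ∑ y ∈ boxF d t, PP β h η t y = Z β h η t := by
    have h3 := S98.Z_split β h η t 0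
    rw [Nat.add_zero] at h3
    rw [h3]
    exact Finset.sum_congr rfl fun y _ => by rw [Z_zero, mul_one]
  rw [h2, div_self (Z_pos hd β h η t).ne', one_mul] at h1
  have h4 : ∑ y ∈ boxF d t, cE ρ (Pa d t) (Qt β h n t y) η = 1 := by
    rw [← cE_sum (ρ := ρ) (boxF d t) η fun y _ =>
      integrable_spl (measurable_Qt β h n t y) (Qt_abs hd β h ht y) (Pa d t) η]
    unfold cE
    simp only [S98.Qt_sum hd β h ht]
    simp
  rw [h4] at h1
  have h5 : -(cE ρ (Pa d t) (Us ρ β h n t) η) ≤ 0 := by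
    rw [← Real.exp_le_one_iff]
    exact h1
  linarith

/-- The gain of a lucky window. -/
theorem gain89 (hd : 0 < d) (hρ : EM ρ) (β : ℝ) (h : Vec d) {n t K : ℕ} (ht : t + K ≤ n)
    {L c0 U s : ℝ} (hc : 0 < c0) (z0 : Site d) :
    ∀ᵐ η ∂(law d ρ), (∃ y ∈ boxF d t, c0 * Z β h η t ≤ PP β h η t y ∧
      Real.exp (K * L + U) * PP β h η t y ≤ PP β h η (t + K) (y + z0)) →
      cE ρ (Pa d t) (Us ρ β h n t) η ≤ s →
      Real.log c0 + (K * L + U) + A ρ β h (n - (t + K)) - A ρ β h (n - t) - s ≤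
        cE ρ (Pa d (t + K)) (fun η => X β h η n) η -
          cE ρ (Pa d t) (fun η => X β h η n) η := by
  filter_upwards [fut89 hd hρ β h ht, cE_Us hd hρ β h n t] with η h1 h2 ⟨y, _, h3, h4⟩ h5
  have hZ := Z_pos hd β h η t
  have hP : 0 < PP β h η t y := lt_of_lt_of_le (mul_pos hc hZ) h3
  have hP2 : 0 < PP β h η (t + K) (y + z0) :=
    lt_of_lt_of_le (mul_pos (Real.exp_pos _) hP) h4
  have e1 := h1 (y + z0) hP2
  have e2 := Real.log_le_log (mul_pos hc hZ) h3
  rw [Real.log_mul hc.ne' hZ.ne'] at e2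
  have e3 := Real.log_le_log (mul_pos (Real.exp_pos _) hP) h4
  rw [Real.log_mul (Real.exp_pos _).ne' hP.ne', Real.log_exp] at e3
  have e4 : Real.log (Z β h η t) = X β h η t := rfl
  rw [e4] at e2
  rw [h2] at h5
  linarith

end Pool.Agent.W_7d29a1_P89
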