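import Pool.Agent.W_7d29a1_P89.SL
import Pool.Agent.W_7d29a1_Q29.Top29

/-!
Theorem (SL) in the form of the frame `Top29`.
-/

set_option autoImplicit false

namespace Pool.Agent.W_7d29a1_P89

open MeasureTheory ProbabilityTheory Filter Topology Pool.Agent.W_MP_7d29a1_pr
  Pool.Agent.W_7d29a1_h46 Pool.Agent.W_7d29a1_h46u Pool.Agent.W_7d29a1_D2.B35
  Pool.Agent.W_7d29a1_Q29

theorem slq89 {d : ℕ} {ρ : Measure ℝ} [IsProbabilityMeasure ρ] (hd : 0 < d) (hρ : EM ρ) (β : ℝ) :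
    SLQ d ρ β := fun h hV _ε M hε => mainSL hd hρ β h hV hε M

end Pool.Agent.W_7d29a1_P89
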