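import Pool.Agent.W_7d29a1_P89.Basic

/-!
Theorem (P): submultiplicativity of the sums over the end points, with and without lucky segments.
-/

namespace Pool.Agent.W_7d29a1_P89

open MeasureTheory ProbabilityTheory Filter Topology Pool.Agent.W_MP_7d29a1_pr
  Pool.Agent.W_7d29a1_h46 Pool.Agent.W_7d29a1_h46u Pool.Agent.W_7d29a1_D2.B35

variable {d : ℕ} {ρ : Measure ℝ} [IsProbabilityMeasure ρ]

open Classical in
/-- General form of submultiplicativity. -/
theorem sub_gen (hd : 0 < d) (hρ : EM ρ) (P : Prm d) (h0 : 0 < P.a) (h1 : P.a ≤ 1) {m n : ℕ}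
    {A B C : Env d → Prop} (mA : MeasurableSet {η | A η}) (mB : MeasurableSet {η | B η})
    (mC : MeasurableSet {η | C η}) (dA : DependsOn A {p | p.1 ≤ m})
    (dB : DependsOn B {p | 1 ≤ p.1})
    (hC : ∀ η, C η → A η ∧ ∀ z ∈ boxF d m, B (sh m z η)) :
    ∫ η, (if C η then V P η (m + n) else 0) ∂(law d ρ) ≤
      (∫ η, (if A η then V P η m else 0) ∂(law d ρ)) *
        ∫ η, (if B η then V P η n else 0) ∂(law d ρ) := by
  set FA : Site d → Env d → ℝ := fun z η => if A η then W P η m z ^ P.a else 0 with hFA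
  set GB : Env d → ℝ := fun η => if B η then V P η n else 0 with hGB
  have mFA : ∀ z, Measurable (FA z) := fun z =>
    Measurable.ite mA ((measurable_W P m z).pow_const _) measurable_const
  have mGB : Measurable GB := Measurable.ite mB (measurable_V P n) measurable_const
  have nFA : ∀ z η, 0 ≤ FA z η := fun z η => by
    simp only [hFA]
    split_ifs
    · exact Real.rpow_nonneg (W_nonneg _ _ _ _) _
    · exact le_rfl
  have nGB : ∀ η, 0 ≤ GB η := fun η => by
    simp only [hGB]
    split_ifs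
    · exact V_nonneg P η n
    · exact le_rfl
  have dFA : ∀ z, DependsOn (FA z) {p | p.1 ≤ m} := fun z η η' hη => by
    have e1 : A η = A η' := dA hη
    have e2 : W P η m z = W P η' m z := dependsOn_Wr P m z hη
    simp only [hFA, e1, e2]
  have dGB : DependsOn GB {p | 1 ≤ p.1} := fun η η' hη => by
    have e1 : B η = B η' := dB hη
    have e2 : V P η n = V P η' n := dependsOn_V P n hη
    simp only [hGB, e1, e2]
  have hint : ∀ z ∈ boxF d m, Integrable (fun η => FA z η * GB (sh m z η)) (law d ρ) := by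
    intro z _
    refine int_of_le hd hρ P (n := m + n) (C := (2 * (n : ℝ) + 1) ^ d)
      ((mFA z).mul (mGB.comp (measurable_sh m z))) (fun η => mul_nonneg (nFA z η) (nGB _))
      fun η => ?_
    refine le_trans ?_ (prod_le hd P h0.le h1 η m n z)
    refine mul_le_mul ?_ ?_ (nGB _) (Real.rpow_nonneg (W_nonneg _ _ _ _) _)
    · simp only [hFA]
      split_ifs
      · exact le_rfl
      · exact Real.rpow_nonneg (W_nonneg _ _ _ _) _
    · simp only [hGB]
      split_ifs
      · exact le_rfl
      · exact V_nonneg _ _ _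
  have hprod : ∀ z ∈ boxF d m, ∫ η, FA z η * GB (sh m z η) ∂(law d ρ) =
      (∫ η, FA z η ∂(law d ρ)) * ∫ η, GB η ∂(law d ρ) := by
    intro z _
    have e := integral_indep (ρ := ρ) {p : ℕ × Site d | p.1 ≤ m} (F := FA z)
      (G := fun η => GB (sh m z η)) (mFA z) (mGB.comp (measurable_sh m z)) (dFA z)
      (dependsOn_sh dGB m z)
    rw [e, integral_sh m z mGB]
  have hFAint : ∀ z ∈ boxF d m, Integrable (FA z) (law d ρ) := by
    intro z _
    refine int_of_le hd hρ P (n := m) (C := 1) (mFA z) (nFA z) fun η => ?_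
    rw [one_mul]
    have h2 := rpow_le_one_add (W_nonneg P η m z) h0.le h1
    have h3 := W_le_ZH P η m z
    have h4 := ZH_pos hd P η m
    simp only [hFA]
    split_ifs
    · linarith
    · linarith
  have hsumA : ∑ z ∈ boxF d m, ∫ η, FA z η ∂(law d ρ) =
      ∫ η, (if A η then V P η m else 0) ∂(law d ρ) := by
    rw [← integral_finsetSum _ hFAint]
    refine integral_congr_ae (Eventually.of_forall fun η => ?_)
    simp only [hFA]
    by_cases hA : A η
    · simp only [if_pos hA]
      rfl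
    · simp only [if_neg hA, Finset.sum_const_zero]
  have hCint : Integrable (fun η => if C η then V P η (m + n) else 0) (law d ρ) := by
    refine int_of_le hd hρ P (n := m + n) (C := (2 * ((m + n : ℕ) : ℝ) + 1) ^ d)
      (Measurable.ite mC (measurable_V P _) measurable_const) (fun η => ?_) fun η => ?_
    · split_ifs
      · exact V_nonneg _ _ _
      · exact le_rfl
    · have h2 := V_le' hd P h0.le h1 η (m + n)
      split_ifs
      · exact h2
      · exact (V_nonneg _ _ _).trans h2
  calc ∫ η, (if C η then V P η (m + n) else 0) ∂(law d ρ)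
      ≤ ∫ η, ∑ z ∈ boxF d m, FA z η * GB (sh m z η) ∂(law d ρ) := by
        refine integral_mono hCint (integrable_finsetSum _ hint) fun η => ?_
        beta_reduce
        by_cases hc : C η
        · rw [if_pos hc]
          obtain ⟨hA, hB⟩ := hC η hc
          refine (V_split P h0 h1 η m n).trans (Finset.sum_le_sum fun z hz => ?_)
          simp only [hFA, hGB, if_pos hA, if_pos (hB z hz)]
          exact le_rfl
        · rw [if_neg hc]
          exact Finset.sum_nonneg fun z _ => mul_nonneg (nFA z η) (nGB _)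
    _ = ∑ z ∈ boxF d m, ∫ η, FA z η * GB (sh m z η) ∂(law d ρ) :=
        integral_finsetSum _ hint
    _ = ∑ z ∈ boxF d m, (∫ η, FA z η ∂(law d ρ)) * ∫ η, GB η ∂(law d ρ) :=
        Finset.sum_congr rfl hprod
    _ = (∫ η, (if A η then V P η m else 0) ∂(law d ρ)) * ∫ η, GB η ∂(law d ρ) := by
        rw [← Finset.sum_mul, hsumA]

theorem MP_sub (hd : 0 < d) (hρ : EM ρ) (P : Prm d) (h0 : 0 < P.a) (h1 : P.a ≤ 1) (m n : ℕ) :
    MP ρ P (m + n) ≤ MP ρ P m * MP ρ P n := by
  classical
  have h := sub_gen (ρ := ρ) hd hρ P h0 h1 (m := m) (n := n) (A := fun _ => True)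
    (B := fun _ => True) (C := fun _ => True) (by simp) (by simp) (by simp)
    (fun _ _ _ => rfl) (fun _ _ _ => rfl) (fun _ _ => ⟨trivial, fun _ _ => trivial⟩)
  simpa [MP] using h

theorem NP_sub (hd : 0 < d) (hρ : EM ρ) (P : Prm d) (h0 : 0 < P.a) (h1 : P.a ≤ 1) (K : ℕ)
    (y : Site d) (U : ℝ) (i j : ℕ) :
    NP ρ P K y U (i + j) ≤ NP ρ P K y U i * NP ρ P K y U j := by
  have h := sub_gen (ρ := ρ) hd hρ P h0 h1 (m := i * K) (n := j * K)
    (A := Gd P K y U i) (B := Gd P K y U j) (C := Gd P K y U (i + j))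
    (measurableSet_Gd P K y U i) (measurableSet_Gd P K y U j) (measurableSet_Gd P K y U (i + j))
    (fun η η' hη => dependsOn_Gd P K y U i fun p hp => hη p hp.2)
    (fun η η' hη => dependsOn_Gd P K y U j fun p hp => hη p hp.1)
    (fun η hη => Gd_split P hη)
  unfold NP
  rw [add_mul]
  exact h

lemma MP_nonneg (P : Prm d) (n : ℕ) : 0 ≤ MP ρ P n := integral_nonneg fun η => V_nonneg P η n

lemma MP_le (hd : 0 < d) (hρ : EM ρ) (P : Prm d) (h0 : 0 ≤ P.a) (h1 : P.a ≤ 1) (n : ℕ) :
    MP ρ P n ≤ (2 * (n : ℝ) + 1) ^ d * aP ρ P n P.a := by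
  unfold MP aP
  rw [← integral_const_mul]
  exact integral_mono (integrable_V hd hρ P h0 h1 n) ((integrable_pow hd hρ P n h0 h1).const_mul _)
    fun η => V_le P h0 η n

lemma aP_le_MP (hd : 0 < d) (hρ : EM ρ) (P : Prm d) (h0 : 0 < P.a) (h1 : P.a ≤ 1) (n : ℕ) :
    aP ρ P n P.a ≤ MP ρ P n :=
  integral_mono (integrable_pow hd hρ P n h0.le h1) (integrable_V hd hρ P h0.le h1 n)
    fun η => ZH_le_V P h0 h1 η n

end Pool.Agent.W_7d29a1_P89
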